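import Pool.Agent.W667.BN.A4
import Pool.Agent.W667.LO
import Pool.Agent.H203R3.BH.Defs

set_option autoImplicit false
set_option linter.deprecated false
set_option linter.unusedSectionVars false
set_option maxSynthPendingDepth 3

/-!
The Stone-Čech compactification of the natural numbers.
-/

namespace Pool.Agent.W667.BN

open Pool.Agent.Helper832.CD Pool.Agent.Helper832.GD Pool.Agent.H203R3.BH

/-- The one-dimensional module `ℂ_p` over `C(Ω)`: the complex numbers with the action
`a z = a(p) z`. -/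
noncomputable def ptMod {Ω : Type} [TopologicalSpace Ω] [CompactSpace Ω] (p : Ω) :
    LMod C(Ω, ℂ) where
  carrier := ℂ
  act a z := a p * z
  bdd := ((ContinuousLinearMap.mul ℂ ℂ).comp (ContinuousMap.evalCLM ℂ p)).isBoundedBilinearMap
  act_mul a b z := mul_assoc (a p) (b p) z

section general

variable {A : Type} [NormedRing A] [NormedAlgebra ℂ A] [CompleteSpace A]
variable {D : Dat A} {χ : Chr A}

theorem no_res (hχ : NP D χ) {X : LMod A} (i : ℂ ≃L[ℂ] X.carrier)
    (hX : ∀ a z, X.act a (i z) = i (χ.ε a * z)) (m : ℕ) : ¬ X.HasResolution m := by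
  rintro ⟨R, hR⟩
  obtain ⟨T, h1, h2⟩ := exists_T χ i hX (m + 1) ⟨R, fun i hi => hR i (by omega)⟩
  exact no_T hχ m T h1 h2

theorem dh_top (hχ : NP D χ) {X : LMod A} (i : ℂ ≃L[ℂ] X.carrier)
    (hX : ∀ a z, X.act a (i z) = i (χ.ε a * z)) : X.dh = ⊤ := by
  simp only [LMod.dh, iInf_eq_top]
  intro n hn
  exact absurd hn (no_res hχ i hX n)

theorem db_top (hχ : NP D χ) : db A = ⊤ := by
  obtain ⟨X, i, hX, hX'⟩ := BD.exists_aug χ.ε χ.mul
  have h1 : ∀ n, ¬ (plusBMod A).HasResolution n := fun n hn =>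
    no_res hχ i (fun a z => by rw [hX, ← smul_eq_mul, map_smul]) n (hX' n hn)
  simp only [db, BMod.dh, iInf_eq_top]
  intro n hn
  exact absurd hn (h1 n)

end general

/-- The points. -/
noncomputable def datBeta : Dat C(StoneCech ℕ, ℂ) where
  pt n := ContinuousMap.evalCLM ℂ (stoneCechUnit n)
  le n a := ContinuousMap.norm_coe_le_norm a _
  nrm a C hC h := by
    rw [ContinuousMap.norm_le _ hC]
    intro x
    have hcl : IsClosed {x : StoneCech ℕ | ‖a x‖ ≤ C} :=
      isClosed_le (a.continuous.norm) continuous_const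
    have h2 : (Set.range (stoneCechUnit : ℕ → StoneCech ℕ)) ⊆ {x : StoneCech ℕ | ‖a x‖ ≤ C} := by
      rintro _ ⟨n, rfl⟩
      exact h n
    exact (hcl.closure_subset_iff.2 h2) (denseRange_stoneCechUnit x)
  mul _ _ _ := rfl
  one _ := rfl
  ext f C h := by
    let K := Metric.closedBall (0 : ℂ) C
    have : CompactSpace K := isCompact_iff_compactSpace.1 (isCompact_closedBall _ _)
    let g : ℕ → K := fun n => ⟨f n, mem_closedBall_zero_iff.2 (h n)⟩
    have hg : Continuous g := continuous_of_discreteTopology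
    refine ⟨⟨fun x => ((stoneCechExtend hg x : K) : ℂ),
      continuous_subtype_val.comp (continuous_stoneCechExtend hg)⟩, fun n => ?_⟩
    show ((stoneCechExtend hg (stoneCechUnit n) : K) : ℂ) = f n
    rw [stoneCechExtend_stoneCechUnit]

/-- The character of a point. -/
noncomputable def chrPt (p : StoneCech ℕ) : Chr C(StoneCech ℕ, ℂ) where
  ε := ContinuousMap.evalCLM ℂ p
  mul _ _ := rfl
  one := rfl

lemma chrPt_np (p : StoneCech ℕ) (hp : p ∉ Set.range (stoneCechUnit : ℕ → StoneCech ℕ)) :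
    NP datBeta (chrPt p) := by
  intro n a h
  have hcl : IsClosed ({x : StoneCech ℕ | a x = 0} ∪ {stoneCechUnit n}) :=
    (isClosed_eq a.continuous continuous_const).union isClosed_singleton
  have h2 : (Set.range (stoneCechUnit : ℕ → StoneCech ℕ)) ⊆
      {x : StoneCech ℕ | a x = 0} ∪ {stoneCechUnit n} := by
    rintro _ ⟨k, rfl⟩
    by_cases hk : k = n
    · right
      rw [hk]
      rfl
    · left
      exact h k hk
  have h3 := (hcl.closure_subset_iff.2 h2) (denseRange_stoneCechUnit p)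
  rcases h3 with h3 | h3
  · exact h3
  · exact absurd ⟨n, h3.symm⟩ hp

lemma exists_free : ∃ p : StoneCech ℕ, p ∉ Set.range (stoneCechUnit : ℕ → StoneCech ℕ) := by
  by_contra hno
  push Not at hno
  obtain ⟨a, ha⟩ := datBeta.ext (fun n => 1 / ((n : ℂ) + 1)) 1 (fun n => by
    rw [norm_div, norm_one]
    have h1 : ‖((n : ℂ) + 1)‖ = (n : ℝ) + 1 := by
      have : ((n : ℂ) + 1) = ((n + 1 : ℕ) : ℂ) := by push_cast; rfl
      rw [this, Complex.norm_natCast]
      push_cast
      rfl
    rw [h1, div_le_one (by positivity)]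
    linarith [Nat.cast_nonneg (α := ℝ) n])
  have hn : ∀ n : ℕ, ‖a (stoneCechUnit n)‖ = 1 / ((n : ℝ) + 1) := fun n => by
    have h0 : a (stoneCechUnit n) = 1 / ((n : ℂ) + 1) := ha n
    rw [h0, norm_div, norm_one]
    have : ((n : ℂ) + 1) = ((n + 1 : ℕ) : ℂ) := by push_cast; rfl
    rw [this, Complex.norm_natCast]
    push_cast
    rfl
  obtain ⟨x, -, hx⟩ := isCompact_univ.exists_isMinOn (s := (Set.univ : Set (StoneCech ℕ)))
    ⟨stoneCechUnit 0, Set.mem_univ _⟩ (f := fun x => ‖a x‖) a.continuous.norm.continuousOn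
  obtain ⟨n, rfl⟩ := hno x
  have h2 : ‖a (stoneCechUnit n)‖ ≤ ‖a (stoneCechUnit (n + 1))‖ := hx (Set.mem_univ _)
  rw [hn, hn] at h2
  have h3 : 1 / (((n + 1 : ℕ) : ℝ) + 1) < 1 / ((n : ℝ) + 1) := by
    apply one_div_lt_one_div_of_lt (by positivity)
    push_cast
    linarith
  linarith

theorem ptMod_dh (p : StoneCech ℕ) (hp : p ∉ Set.range (stoneCechUnit : ℕ → StoneCech ℕ)) :
    (ptMod p).dh = ⊤ :=
  dh_top (chrPt_np p hp) (ContinuousLinearEquiv.refl ℂ ℂ) fun _ _ => rfl

lemma ptMod_irr {Ω : Type} [TopologicalSpace Ω] [CompactSpace Ω] (p : Ω) :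
    IsIrreducible (ptMod p) := by
  refine ⟨⟨1, (1 : ℂ), ?_⟩, fun N _ => ?_⟩
  · show (1 : ℂ) * 1 ≠ 0
    rw [one_mul]
    exact one_ne_zero
  · by_cases h : ∃ v ∈ N, v ≠ 0
    · right
      obtain ⟨v, hv, hv0⟩ := h
      rw [eq_top_iff]
      intro w _
      have hv0' : (show ℂ from v) ≠ 0 := hv0
      have e : w = ((show ℂ from w) / (show ℂ from v)) • v := by
        show (show ℂ from w) = ((show ℂ from w) / (show ℂ from v)) * (show ℂ from v)
        field_simp
      rw [e]
      exact N.smul_mem _ hv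
    · left
      push Not at h
      rw [eq_bot_iff]
      intro v hv
      rw [Submodule.mem_bot]
      exact h v hv

theorem ds_beta : ds C(StoneCech ℕ, ℂ) = ⊤ := by
  obtain ⟨p, hp⟩ := exists_free
  refine top_le_iff.1 ?_
  rw [← ptMod_dh p hp]
  exact le_iSup₂_of_le (ptMod p) (ptMod_irr p) le_rfl

theorem dg_beta : dg C(StoneCech ℕ, ℂ) = ⊤ := by
  refine top_le_iff.1 ?_
  rw [← ds_beta]
  exact ds_le_dg _

theorem db_beta : db C(StoneCech ℕ, ℂ) = ⊤ := by
  obtain ⟨p, hp⟩ := exists_free
  exact db_top (chrPt_np p hp)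

/-- The zero module. -/
noncomputable def zMod (A : Type) [NonUnitalNormedRing A] [NormedSpace ℂ A] : LMod A where
  carrier := PUnit
  act _ x := x
  bdd := { add_left := fun _ _ _ => rfl, smul_left := fun _ _ _ => rfl,
           add_right := fun _ _ _ => rfl, smul_right := fun _ _ _ => rfl,
           bound := ⟨1, one_pos, fun a x => by
            rw [Subsingleton.elim x 0, norm_zero, mul_zero]⟩ }
  act_mul _ _ _ := rfl

/-- A projective module has dimension zero. -/
theorem dh_zero {A : Type} [NonUnitalNormedRing A] [NormedSpace ℂ A] {X : LMod A}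
    (hX : X.Projective) : X.dh = 0 := by
  let P : ℕ → LMod A := fun i => match i with
    | 0 => X
    | _ + 1 => zMod A
  let R : LMod.Resolution X :=
    { P := P
      ε := fun x => x
      d := fun _ _ => 0
      s' := fun x => x
      s := fun _ _ => 0
      projective := fun i => match i with
        | 0 => hX
        | _ + 1 => fun Y Z σ φ hσ _ hφ => ⟨fun _ => 0, ⟨⟨⟨fun _ _ => (add_zero 0).symm,
            fun _ _ => (smul_zero _).symm⟩, 1, one_pos, fun x => by
              rw [norm_zero, one_mul]; exact norm_nonneg x⟩, fun a _ => by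
                have := Y.bdd.toContinuousLinearMap a |>.map_zero
                exact this.symm⟩, fun x => by
                  rw [hσ.1.toIsLinearMap.map_zero]
                  have h0 : x = 0 := Subsingleton.elim (α := PUnit) _ _
                  rw [h0, hφ.1.toIsLinearMap.map_zero]⟩
      ε_hom := ⟨IsBoundedLinearMap.id, fun _ _ => rfl⟩
      d_hom := fun i => ⟨IsBoundedLinearMap.zero, fun a _ =>
        ((P i).bdd.toContinuousLinearMap a).map_zero.symm⟩
      s'_bdd := IsBoundedLinearMap.id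
      s_bdd := fun _ => IsBoundedLinearMap.zero
      ε_d := fun _ => rfl
      d_d := fun _ _ => rfl
      ε_s := fun _ => rfl
      h_zero := fun x => add_zero x
      h_succ := fun _ _ => Subsingleton.elim (α := PUnit) _ _ }
  have h0 : X.HasResolution 0 := ⟨R, fun i hi => by
    obtain ⟨k, rfl⟩ := Nat.exists_eq_succ_of_ne_zero hi.ne'
    exact (inferInstance : Subsingleton PUnit)⟩
  refine le_antisymm ?_ bot_le
  exact iInf₂_le_of_le 0 h0 le_rfl

/-- The modules of isolated points are projective. -/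
theorem ptMod_dh_zero (n : ℕ) : (ptMod (stoneCechUnit n : StoneCech ℕ)).dh = 0 := by
  refine dh_zero fun Y Z σ φ hσ hs hφ => ?_
  obtain ⟨g, hg, hgs⟩ := hs
  let e : C(StoneCech ℕ, ℂ) := el datBeta (ind {n})
  have he : ∀ a : C(StoneCech ℕ, ℂ), a * e = a (stoneCechUnit n) • e := fun a => by
    refine datBeta.inj fun k => ?_
    rw [datBeta.mul, map_smul, pt_el]
    by_cases hk : k = n
    · rw [hk]; rfl
    · rw [ind_of_notMem (fun h => hk (Set.mem_singleton_iff.1 h)), mul_zero, smul_zero]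
  have he1 : e (stoneCechUnit n) = 1 := by
    have h1 : datBeta.pt n e = ind {n} n := pt_el datBeta _ n
    rw [ind_of_mem (Set.mem_singleton n)] at h1
    exact h1
  let ψ : ℂ →L[ℂ] Y.carrier := (Y.bdd.toContinuousLinearMap e).comp
    (hg.toContinuousLinearMap.comp (hφ.1.toContinuousLinearMap : ℂ →L[ℂ] Z.carrier))
  have hψ : ∀ z : ℂ, ψ z = Y.act e (g (φ z)) := fun z => rfl
  refine ⟨fun z => ψ z, ⟨ψ.isBoundedLinearMap, fun a z => ?_⟩, fun z => ?_⟩
  · show ψ (a (stoneCechUnit n) * (show ℂ from z)) = Y.act a (ψ z)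
    rw [← smul_eq_mul, map_smul, hψ, ← Y.act_mul, he]
    exact ((Y.bdd.smul_left _ _ _)).symm
  · show σ (ψ z) = φ z
    rw [hψ, hσ.2, hgs]
    have h2 := hφ.2 e z
    rw [← h2]
    show φ (e (stoneCechUnit n) * (show ℂ from z) : ℂ) = φ z
    rw [he1, one_mul]

end Pool.Agent.W667.BN
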