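import Pool.Agent.Helper832.GDA
import Pool.Agent.H817R4.DF.Comp

set_option autoImplicit false
set_option linter.unusedSectionVars false
set_option maxSynthPendingDepth 3

/-!
The normalized bar resolution of a character of a unital Banach algebra.
-/

namespace Pool.Agent.W667.BN

open Pool.Agent.Helper832.CD Pool.Agent.Helper832.GD Pool.Agent.H817R4.DF

section tens

variable {P P' Q Q' : Type} [NormedAddCommGroup P] [NormedSpace ℂ P]
  [NormedAddCommGroup P'] [NormedSpace ℂ P']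
  [NormedAddCommGroup Q] [NormedSpace ℂ Q] [NormedAddCommGroup Q'] [NormedSpace ℂ Q']

/-- Closed subspaces containing the elementary tensors are everything. -/
lemma tens_closed (S : Submodule ℂ (Tens P Q)) (hS : IsClosed (S : Set (Tens P Q)))
    (h : ∀ p q, tens p q ∈ S) (t : Tens P Q) : t ∈ S := by
  have : IsClosed (S : Set (Tens P Q)) := hS
  have h1 : (S.mkQL : Tens P Q →L[ℂ] Tens P Q ⧸ S) = 0 := by
    refine tens_ext fun p q => ?_
    exact (Submodule.Quotient.mk_eq_zero S).2 (h p q)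
  have h2 : (S.mkQL : Tens P Q →L[ℂ] Tens P Q ⧸ S) t = 0 := by rw [h1]; rfl
  exact (Submodule.Quotient.mk_eq_zero S).1 h2

/-- The map `f ⊗ 1`. -/
noncomputable def mapL (f : P →L[ℂ] P') : Tens P Q →L[ℂ] Tens P' Q := lift (tens.comp f)

@[simp] lemma mapL_tens (f : P →L[ℂ] P') (p : P) (q : Q) :
    mapL f (tens p q) = tens (f p) q := lift_tens _ _ _

/-- The dependence on the operator. -/
noncomputable def mapLL : (P →L[ℂ] P') →L[ℂ] (Tens P Q →L[ℂ] Tens P' Q) :=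
  lift.comp (ContinuousLinearMap.compL ℂ P P' (Q →L[ℂ] Tens P' Q) tens)

lemma mapLL_apply (f : P →L[ℂ] P') : (mapLL f : Tens P Q →L[ℂ] Tens P' Q) = mapL f := rfl

lemma norm_lift_le (m : P →L[ℂ] Q →L[ℂ] Q') [CompleteSpace Q'] :
    ‖(lift m : Tens P Q →L[ℂ] Q')‖ ≤ ‖m‖ := by
  refine ContinuousLinearMap.opNorm_le_bound _ (norm_nonneg _) fun t => ?_
  have := norm_lift0_le m t
  rw [one_mul] at this
  exact this

end tens

variable {A : Type} [NormedRing A] [NormedAlgebra ℂ A] [CompleteSpace A]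

/-- A module given by a continuous representation. -/
noncomputable def mkM (X : Type) [NormedAddCommGroup X] [NormedSpace ℂ X] [CompleteSpace X]
    (π : A →L[ℂ] X →L[ℂ] X) (h : ∀ a b x, π (a * b) x = π a (π b x)) : LMod A where
  carrier := X
  act a x := π a x
  bdd := π.isBoundedBilinearMap
  act_mul := h

/-- The action as an operator. -/
noncomputable def aM (M : LMod A) : A →L[ℂ] M.carrier →L[ℂ] M.carrier :=
  M.bdd.toContinuousLinearMap

lemma aM_apply (M : LMod A) (a : A) (x : M.carrier) : aM M a x = M.act a x := rfl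

lemma aM_mul (M : LMod A) (a b : A) (x : M.carrier) : aM M (a * b) x = aM M a (aM M b x) :=
  M.act_mul a b x

variable (A) in
/-- A character of a unital Banach algebra. -/
structure Chr where
  ε : A →L[ℂ] ℂ
  mul : ∀ a b, ε (a * b) = ε a * ε b
  one : ε 1 = 1

variable (χ : Chr A)

/-- The kernel of the character. -/
noncomputable abbrev JJ : Submodule ℂ A := LinearMap.ker (χ.ε : A →ₗ[ℂ] ℂ)

lemma JJ_mem {a : A} : a ∈ JJ χ ↔ χ.ε a = 0 := LinearMap.mem_ker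

instance JJ_closed : IsClosed (JJ χ : Set A) := χ.ε.isClosed_ker

instance JJ_complete : CompleteSpace (JJ χ) := (JJ_closed χ).completeSpace_coe

lemma ε_coe (j : JJ χ) : χ.ε (j : A) = 0 := (JJ_mem χ).1 j.2

/-- The projection onto the kernel. -/
noncomputable def prj : A →L[ℂ] JJ χ :=
  ((ContinuousLinearMap.id ℂ A) - (ContinuousLinearMap.toSpanSingleton ℂ (1 : A)).comp χ.ε).codRestrict
    (JJ χ) (fun a => by
      rw [JJ_mem]
      show χ.ε (a - χ.ε a • (1 : A)) = 0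
      rw [map_sub, map_smul, χ.one, smul_eq_mul, mul_one, sub_self])

lemma prj_coe (a : A) : ((prj χ a : JJ χ) : A) = a - χ.ε a • (1 : A) := rfl

lemma prj_of (j : JJ χ) : prj χ (j : A) = j := by
  apply Subtype.ext
  rw [prj_coe, ε_coe, zero_smul, sub_zero]

/-- Multiplication on the kernel. -/
noncomputable def mulJ : A →L[ℂ] JJ χ →L[ℂ] JJ χ :=
  LinearMap.mkContinuous₂
    (LinearMap.mk₂ ℂ (fun (a : A) (j : JJ χ) => (⟨a * (j : A), by
      rw [JJ_mem, χ.mul, ε_coe, mul_zero]⟩ : JJ χ))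
      (fun a b j => Subtype.ext (add_mul a b _))
      (fun c a j => Subtype.ext (smul_mul_assoc c a _))
      (fun a j j' => Subtype.ext (mul_add a _ _))
      (fun c a j => Subtype.ext (mul_smul_comm c a _)))
    1 (fun a j => by
      rw [one_mul]
      exact norm_mul_le a (j : A))

@[simp] lemma mulJ_coe (a : A) (j : JJ χ) : ((mulJ χ a j : JJ χ) : A) = a * (j : A) := rfl

lemma mulJ_mul (a b : A) (j : JJ χ) : mulJ χ (a * b) j = mulJ χ a (mulJ χ b j) :=
  Subtype.ext (mul_assoc a b _)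

/-- The one-dimensional module. -/
noncomputable def E0 : LMod A :=
  mkM ℂ ((ContinuousLinearMap.lsmul ℂ ℂ : ℂ →L[ℂ] ℂ →L[ℂ] ℂ).comp χ.ε) (fun a b x => by
    show χ.ε (a * b) * x = χ.ε a * (χ.ε b * x)
    rw [χ.mul, mul_assoc])

/-- The module `J ⊗ M`. -/
noncomputable def TJ (M : LMod A) : LMod A :=
  mkM (Tens (JJ χ) M.carrier) (mapLL.comp (mulJ χ)) (fun a b x => by
    have : (mapL (mulJ χ (a * b)) : Tens (JJ χ) M.carrier →L[ℂ] Tens (JJ χ) M.carrier) =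
        (mapL (mulJ χ a)).comp (mapL (mulJ χ b)) := tens_ext fun p q => by
      rw [mapL_tens, ContinuousLinearMap.comp_apply, mapL_tens, mapL_tens, mulJ_mul]
    exact congrArg (fun f : Tens (JJ χ) M.carrier →L[ℂ] Tens (JJ χ) M.carrier => f x) this)

/-- The module `A ⊗ M`. -/
noncomputable def TA (M : LMod A) : LMod A :=
  mkM (Tens A M.carrier) (mapLL.comp (ContinuousLinearMap.mul ℂ A)) (fun a b x => by
    have : (mapL (ContinuousLinearMap.mul ℂ A (a * b)) : Tens A M.carrier →L[ℂ] Tens A M.carrier) =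
        (mapL (ContinuousLinearMap.mul ℂ A a)).comp (mapL (ContinuousLinearMap.mul ℂ A b)) :=
      tens_ext fun p q => by
        rw [mapL_tens, ContinuousLinearMap.comp_apply, mapL_tens, mapL_tens]
        show tens (a * b * p) q = tens (a * (b * p)) q
        rw [mul_assoc]
    exact congrArg (fun f : Tens A M.carrier →L[ℂ] Tens A M.carrier => f x) this)

/-- elementary tensors in `J ⊗ M` -/
noncomputable def tJ (M : LMod A) : JJ χ →L[ℂ] M.carrier →L[ℂ] (TJ χ M).carrier :=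
  (tens : JJ χ →L[ℂ] M.carrier →L[ℂ] Tens (JJ χ) M.carrier)

/-- elementary tensors in `A ⊗ M` -/
noncomputable def tA (M : LMod A) : A →L[ℂ] M.carrier →L[ℂ] (TA M).carrier :=
  (tens : A →L[ℂ] M.carrier →L[ℂ] Tens A M.carrier)

/-- operators on `J ⊗ M` -/
noncomputable def lJ (M : LMod A) {Z : Type} [NormedAddCommGroup Z] [NormedSpace ℂ Z]
    [CompleteSpace Z] (m : JJ χ →L[ℂ] M.carrier →L[ℂ] Z) : (TJ χ M).carrier →L[ℂ] Z :=
  (lift m : Tens (JJ χ) M.carrier →L[ℂ] Z)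

/-- operators on `A ⊗ M` -/
noncomputable def lA (M : LMod A) {Z : Type} [NormedAddCommGroup Z] [NormedSpace ℂ Z]
    [CompleteSpace Z] (m : A →L[ℂ] M.carrier →L[ℂ] Z) : (TA M).carrier →L[ℂ] Z :=
  (lift m : Tens A M.carrier →L[ℂ] Z)

@[simp] lemma lJ_tJ (M : LMod A) {Z : Type} [NormedAddCommGroup Z] [NormedSpace ℂ Z]
    [CompleteSpace Z] (m : JJ χ →L[ℂ] M.carrier →L[ℂ] Z) (j : JJ χ) (x : M.carrier) :
    lJ χ M m (tJ χ M j x) = m j x := lift_tens m j x

@[simp] lemma lA_tA (M : LMod A) {Z : Type} [NormedAddCommGroup Z] [NormedSpace ℂ Z]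
    [CompleteSpace Z] (m : A →L[ℂ] M.carrier →L[ℂ] Z) (j : A) (x : M.carrier) :
    lA M m (tA M j x) = m j x := lift_tens m j x

lemma extJ (M : LMod A) {Z : Type} [NormedAddCommGroup Z] [NormedSpace ℂ Z]
    {f g : (TJ χ M).carrier →L[ℂ] Z} (h : ∀ j x, f (tJ χ M j x) = g (tJ χ M j x))
    (y : (TJ χ M).carrier) : f y = g y :=
  congrArg (fun F : Tens (JJ χ) M.carrier →L[ℂ] Z => F y) (tens_ext (f := f) (g := g) h)

lemma extA (M : LMod A) {Z : Type} [NormedAddCommGroup Z] [NormedSpace ℂ Z]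
    {f g : (TA M).carrier →L[ℂ] Z} (h : ∀ j x, f (tA M j x) = g (tA M j x))
    (y : (TA M).carrier) : f y = g y :=
  congrArg (fun F : Tens A M.carrier →L[ℂ] Z => F y) (tens_ext (f := f) (g := g) h)

@[simp] lemma aM_tJ (M : LMod A) (a : A) (j : JJ χ) (x : M.carrier) :
    aM (TJ χ M) a (tJ χ M j x) = tJ χ M (mulJ χ a j) x := mapL_tens (mulJ χ a) j x

@[simp] lemma aM_tA (M : LMod A) (a : A) (b : A) (x : M.carrier) :
    aM (TA M) a (tA M b x) = tA M (a * b) x := mapL_tens (ContinuousLinearMap.mul ℂ A a) b x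

lemma aM_E0 (a : A) (x : (E0 χ).carrier) : aM (E0 χ) a x = (χ.ε a • (show ℂ from x) : ℂ) := rfl

/-- The inclusion `J ⊗ M → A ⊗ M`. -/
noncomputable def inc (M : LMod A) : (TJ χ M).carrier →L[ℂ] (TA M).carrier :=
  lJ χ M ((tA M).comp (JJ χ).subtypeL)

@[simp] lemma inc_tJ (M : LMod A) (j : JJ χ) (x : M.carrier) :
    inc χ M (tJ χ M j x) = tA M (j : A) x := lJ_tJ χ M _ j x

/-- Unital modules. -/
def Uni (M : LMod A) : Prop := ∀ x, aM M 1 x = x

lemma uni_E0 : Uni (E0 χ) := fun x => by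
  rw [aM_E0, χ.one, one_smul]

lemma uni_TJ (M : LMod A) : Uni (TJ χ M) := fun x => by
  refine extJ χ M (f := aM (TJ χ M) 1) (g := ContinuousLinearMap.id ℂ _) (fun j y => ?_) x
  rw [aM_tJ]
  show tJ χ M (mulJ χ 1 j) y = tJ χ M j y
  congr 2
  exact Subtype.ext (one_mul _)

lemma inc_aM (M : LMod A) (a : A) (y : (TJ χ M).carrier) :
    inc χ M (aM (TJ χ M) a y) = aM (TA M) a (inc χ M y) := by
  refine extJ χ M (f := (inc χ M).comp (aM (TJ χ M) a)) (g := (aM (TA M) a).comp (inc χ M))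
    (fun j x => ?_) y
  simp only [ContinuousLinearMap.comp_apply, aM_tJ, inc_tJ, aM_tA, mulJ_coe]

/-- The action of the kernel. -/
noncomputable def aJ (M : LMod A) : JJ χ →L[ℂ] M.carrier →L[ℂ] M.carrier :=
  (aM M).comp (JJ χ).subtypeL

lemma aJ_apply (M : LMod A) (j : JJ χ) (x : M.carrier) : aJ χ M j x = aM M (j : A) x := rfl

/-- The next boundary operator. -/
noncomputable def nb (E : LMod A) (b : (TJ χ E).carrier →L[ℂ] E.carrier) :
    (TJ χ (TJ χ E)).carrier →L[ℂ] (TJ χ E).carrier :=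
  lJ χ (TJ χ E) (aJ χ (TJ χ E) -
    ((ContinuousLinearMap.compL ℂ (TJ χ E).carrier E.carrier (TJ χ E).carrier).flip b).comp
      (tJ χ E))

lemma nb_tJ (E : LMod A) (b : (TJ χ E).carrier →L[ℂ] E.carrier) (j : JJ χ)
    (y : (TJ χ E).carrier) :
    nb χ E b (tJ χ (TJ χ E) j y) = aM (TJ χ E) (j : A) y - tJ χ E j (b y) :=
  lJ_tJ χ (TJ χ E) _ j y

/-- A level of the resolution. -/
structure Ok (E : LMod A) (b : (TJ χ E).carrier →L[ℂ] E.carrier) : Prop where
  uni : Uni E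
  lin : ∀ a y, b (aM (TJ χ E) a y) = aM E a (b y)
  cyc : ∀ j y, b (tJ χ E j (b y)) = aM E (j : A) (b y)

variable {χ}

lemma Ok.b_nb {E : LMod A} {b : (TJ χ E).carrier →L[ℂ] E.carrier} (h : Ok χ E b)
    (y : (TJ χ (TJ χ E)).carrier) : b (nb χ E b y) = 0 := by
  refine extJ χ (TJ χ E) (f := b.comp (nb χ E b)) (g := 0) (fun j x => ?_) y
  rw [ContinuousLinearMap.comp_apply, nb_tJ, map_sub, h.lin, h.cyc, sub_self]
  rfl

lemma Ok.next {E : LMod A} {b : (TJ χ E).carrier →L[ℂ] E.carrier} (h : Ok χ E b) :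
    Ok χ (TJ χ E) (nb χ E b) where
  uni := uni_TJ χ E
  lin a y := by
    refine extJ χ (TJ χ E) (f := (nb χ E b).comp (aM (TJ χ (TJ χ E)) a))
      (g := (aM (TJ χ E) a).comp (nb χ E b)) (fun j x => ?_) y
    rw [ContinuousLinearMap.comp_apply, ContinuousLinearMap.comp_apply, aM_tJ, nb_tJ, nb_tJ,
      map_sub, aM_tJ, mulJ_coe, aM_mul]
  cyc j y := by
    rw [nb_tJ, h.b_nb, map_zero, sub_zero]

variable (χ)

/-- The first boundary operator. -/
noncomputable def b0 : (TJ χ (E0 χ)).carrier →L[ℂ] (E0 χ).carrier := lJ χ (E0 χ) (aJ χ (E0 χ))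

lemma b0_tJ (j : JJ χ) (x : (E0 χ).carrier) : b0 χ (tJ χ (E0 χ) j x) = aM (E0 χ) (j : A) x :=
  lJ_tJ χ (E0 χ) _ j x

lemma ok0 : Ok χ (E0 χ) (b0 χ) where
  uni := uni_E0 χ
  lin a y := by
    refine extJ χ (E0 χ) (f := (b0 χ).comp (aM (TJ χ (E0 χ)) a))
      (g := (aM (E0 χ) a).comp (b0 χ)) (fun j x => ?_) y
    rw [ContinuousLinearMap.comp_apply, ContinuousLinearMap.comp_apply, aM_tJ, b0_tJ, b0_tJ,
      mulJ_coe, aM_mul]
  cyc j y := b0_tJ χ j (b0 χ y)

/-- The boundary operator of the resolution. -/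
noncomputable def dl (E : LMod A) (b : (TJ χ E).carrier →L[ℂ] E.carrier) :
    (TA (TJ χ E)).carrier →L[ℂ] (TA E).carrier :=
  lA (TJ χ E) ((ContinuousLinearMap.compL ℂ (TJ χ E).carrier (TJ χ E).carrier
      (TA E).carrier (inc χ E)).comp (aM (TJ χ E)) -
    ((ContinuousLinearMap.compL ℂ (TJ χ E).carrier E.carrier (TA E).carrier).flip b).comp
      (tA E))

variable {χ}

lemma dl_tA (E : LMod A) (b : (TJ χ E).carrier →L[ℂ] E.carrier) (a : A)
    (y : (TJ χ E).carrier) :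
    dl χ E b (tA (TJ χ E) a y) = inc χ E (aM (TJ χ E) a y) - tA E a (b y) :=
  lA_tA (TJ χ E) _ a y

variable (χ) in
/-- The homotopy. -/
noncomputable def ta (M : LMod A) : (TA M).carrier →L[ℂ] (TA (TJ χ M)).carrier :=
  lA M ((ContinuousLinearMap.compL ℂ M.carrier (TJ χ M).carrier (TA (TJ χ M)).carrier
    (tA (TJ χ M) 1)).comp ((tJ χ M).comp (prj χ)))

lemma ta_tA (M : LMod A) (a : A) (x : M.carrier) :
    ta χ M (tA M a x) = tA (TJ χ M) 1 (tJ χ M (prj χ a) x) := lA_tA M _ a x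

lemma ta_inc (M : LMod A) (y : (TJ χ M).carrier) : ta χ M (inc χ M y) = tA (TJ χ M) 1 y := by
  refine extJ χ M (f := (ta χ M).comp (inc χ M)) (g := tA (TJ χ M) 1) (fun j x => ?_) y
  rw [ContinuousLinearMap.comp_apply, inc_tJ, ta_tA, prj_of]

section

variable {E : LMod A} {b : (TJ χ E).carrier →L[ℂ] E.carrier}

lemma dl_inc (y : (TJ χ (TJ χ E)).carrier) :
    dl χ E b (inc χ (TJ χ E) y) = inc χ E (nb χ E b y) := by
  refine extJ χ (TJ χ E) (f := (dl χ E b).comp (inc χ (TJ χ E)))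
    (g := (inc χ E).comp (nb χ E b)) (fun j x => ?_) y
  rw [ContinuousLinearMap.comp_apply, ContinuousLinearMap.comp_apply, inc_tJ, dl_tA, nb_tJ,
    map_sub, inc_tJ]

lemma dl_lin (a : A) (y : (TA (TJ χ E)).carrier) :
    dl χ E b (aM (TA (TJ χ E)) a y) = aM (TA E) a (dl χ E b y) := by
  refine extA (TJ χ E) (f := (dl χ E b).comp (aM (TA (TJ χ E)) a))
    (g := (aM (TA E) a).comp (dl χ E b)) (fun c x => ?_) y
  rw [ContinuousLinearMap.comp_apply, ContinuousLinearMap.comp_apply, aM_tA, dl_tA, dl_tA,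
    map_sub, aM_tA, aM_mul, inc_aM]

lemma Ok.dl_dl (h : Ok χ E b) (y : (TA (TJ χ (TJ χ E))).carrier) :
    dl χ E b (dl χ (TJ χ E) (nb χ E b) y) = 0 := by
  refine extA (TJ χ (TJ χ E)) (f := (dl χ E b).comp (dl χ (TJ χ E) (nb χ E b))) (g := 0)
    (fun a x => ?_) y
  rw [ContinuousLinearMap.comp_apply, dl_tA, map_sub, dl_inc, h.next.lin, dl_tA, h.b_nb, map_zero,
    sub_zero, sub_self]
  rfl

lemma prj_act (M : LMod A) (hM : Uni M) (a : A) (x : M.carrier) :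
    aM M a x = χ.ε a • x + aM M (prj χ a : A) x := by
  rw [prj_coe, map_sub, map_smul]
  show aM M a x = χ.ε a • x + (aM M a x - χ.ε a • aM M 1 x)
  rw [hM]
  abel

lemma prj_tA (M : LMod A) (a : A) (x : M.carrier) :
    tA M a x = χ.ε a • tA M 1 x + tA M (prj χ a : A) x := by
  rw [prj_coe, map_sub, map_smul]
  show tA M a x = χ.ε a • tA M 1 x + (tA M a x - χ.ε a • tA M 1 x)
  abel

variable (b) in
/-- The homotopy formula. -/
lemma hmt (y : (TA (TJ χ E)).carrier) :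
    ta χ E (dl χ E b y) + dl χ (TJ χ E) (nb χ E b) (ta χ (TJ χ E) y) = y := by
  refine extA (TJ χ E) (f := (ta χ E).comp (dl χ E b) +
    (dl χ (TJ χ E) (nb χ E b)).comp (ta χ (TJ χ E)))
    (g := ContinuousLinearMap.id ℂ _) (fun a x => ?_) y
  show ta χ E (dl χ E b (tA (TJ χ E) a x)) +
    dl χ (TJ χ E) (nb χ E b) (ta χ (TJ χ E) (tA (TJ χ E) a x)) = tA (TJ χ E) a x
  rw [dl_tA, map_sub, ta_inc, ta_tA, ta_tA, dl_tA, uni_TJ, inc_tJ, nb_tJ,
    prj_act (χ := χ) (TJ χ E) (uni_TJ χ E) a x, map_add, map_sub, map_smul,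
    prj_tA (χ := χ) (TJ χ E) a x]
  abel

end

/-- The augmentation. -/
noncomputable def d0 (M : LMod A) : (TA M).carrier →L[ℂ] M.carrier := lA M (aM M)

lemma d0_tA (M : LMod A) (a : A) (x : M.carrier) : d0 M (tA M a x) = aM M a x := lA_tA M _ a x

lemma d0_lin (M : LMod A) (a : A) (y : (TA M).carrier) :
    d0 M (aM (TA M) a y) = aM M a (d0 M y) := by
  refine extA M (f := (d0 M).comp (aM (TA M) a)) (g := (aM M a).comp (d0 M)) (fun b x => ?_) y
  rw [ContinuousLinearMap.comp_apply, ContinuousLinearMap.comp_apply, aM_tA, d0_tA, d0_tA, aM_mul]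

lemma d0_dl (y : (TA (TJ χ (E0 χ))).carrier) : d0 (E0 χ) (dl χ (E0 χ) (b0 χ) y) = 0 := by
  refine extA (TJ χ (E0 χ)) (f := (d0 (E0 χ)).comp (dl χ (E0 χ) (b0 χ))) (g := 0)
    (fun a x => ?_) y
  have h1 : ∀ z, d0 (E0 χ) (inc χ (E0 χ) z) = b0 χ z := fun z => by
    refine extJ χ (E0 χ) (f := (d0 (E0 χ)).comp (inc χ (E0 χ))) (g := b0 χ)
      (fun j w => ?_) z
    rw [ContinuousLinearMap.comp_apply, inc_tJ, d0_tA, b0_tJ]
  rw [ContinuousLinearMap.comp_apply, dl_tA, map_sub, h1, (ok0 χ).lin, d0_tA, sub_self]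
  rfl

lemma hmt0 (y : (TA (E0 χ)).carrier) :
    tA (E0 χ) 1 (d0 (E0 χ) y) + dl χ (E0 χ) (b0 χ) (ta χ (E0 χ) y) = y := by
  refine extA (E0 χ) (f := (tA (E0 χ) 1).comp (d0 (E0 χ)) +
    (dl χ (E0 χ) (b0 χ)).comp (ta χ (E0 χ))) (g := ContinuousLinearMap.id ℂ _) (fun a x => ?_) y
  show tA (E0 χ) 1 (d0 (E0 χ) (tA (E0 χ) a x)) +
    dl χ (E0 χ) (b0 χ) (ta χ (E0 χ) (tA (E0 χ) a x)) = tA (E0 χ) a x
  rw [d0_tA, ta_tA, dl_tA, uni_TJ, inc_tJ, b0_tJ,
    prj_act (χ := χ) (E0 χ) (uni_E0 χ) a x, map_add, map_smul,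
    prj_tA (χ := χ) (E0 χ) a x]
  abel

/-- Free modules have the lifting property. -/
theorem TA_lifts (M : LMod A) : Lifts (TA M) := by
  intro Y Z D φ σ hD hφ hσ h
  let φ' : (TA M).carrier →L[ℂ] Z.carrier := hφ.1.toContinuousLinearMap
  let σ' : Z.carrier →L[ℂ] Y.carrier := hσ.toContinuousLinearMap
  let D' : Y.carrier →L[ℂ] Z.carrier := hD.1.toContinuousLinearMap
  let u : M.carrier →L[ℂ] Y.carrier := (σ'.comp φ').comp (tA M 1)
  let ψ : (TA M).carrier →L[ℂ] Y.carrier :=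
    lA M (((ContinuousLinearMap.compL ℂ M.carrier Y.carrier Y.carrier).flip u).comp (aM Y))
  have hψ : ∀ a x, ψ (tA M a x) = aM Y a (u x) := fun a x => lA_tA M _ a x
  have h1 : ∀ (a : A) (y : (TA M).carrier), ψ (aM (TA M) a y) = aM Y a (ψ y) := fun a y => by
    refine extA M (f := ψ.comp (aM (TA M) a)) (g := (aM Y a).comp ψ) (fun b x => ?_) y
    rw [ContinuousLinearMap.comp_apply, ContinuousLinearMap.comp_apply, aM_tA, hψ, hψ, aM_mul]
  have h2 : ∀ y : (TA M).carrier, D' (ψ y) = φ' y := fun y => by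
    refine extA M (f := D'.comp ψ) (g := φ') (fun b x => ?_) y
    rw [ContinuousLinearMap.comp_apply, hψ]
    have e1 : D' (aM Y b (u x)) = aM Z b (D' (u x)) := hD.2 b (u x)
    have e2 : D' (u x) = φ' (tA M 1 x) := h (tA M 1 x)
    have e3 : φ' (aM (TA M) b (tA M 1 x)) = aM Z b (φ' (tA M 1 x)) := hφ.2 b (tA M 1 x)
    rw [e1, e2, ← e3, aM_tA, mul_one]
  exact ⟨ψ, ⟨ψ.isBoundedLinearMap, h1⟩, h2⟩

variable (χ)

/-- A level. -/
structure Lv where
  E : LMod A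
  b : (TJ χ E).carrier →L[ℂ] E.carrier
  ok : Ok χ E b

/-- The levels. -/
noncomputable def lv : ℕ → Lv χ
  | 0 => ⟨E0 χ, b0 χ, ok0 χ⟩
  | k + 1 => ⟨TJ χ (lv k).E, nb χ (lv k).E (lv k).b, (lv k).ok.next⟩

/-- The modules of the resolution. -/
noncomputable def MM : ℕ → LMod A
  | 0 => E0 χ
  | k + 1 => TA (lv χ k).E

/-- The complex. -/
noncomputable def CC : Cx A where
  M := MM χ
  δ := fun k => match k with
    | 0 => (d0 (E0 χ) : (TA (E0 χ)).carrier → (E0 χ).carrier)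
    | k + 1 => (dl χ (lv χ k).E (lv χ k).b : (TA (TJ χ (lv χ k).E)).carrier → (TA (lv χ k).E).carrier)
  τ := fun k => match k with
    | 0 => (tA (E0 χ) 1 : (E0 χ).carrier → (TA (E0 χ)).carrier)
    | k + 1 => (ta χ (lv χ k).E : (TA (lv χ k).E).carrier → (TA (TJ χ (lv χ k).E)).carrier)
  hom := fun k => match k with
    | 0 => ⟨(d0 (E0 χ)).isBoundedLinearMap, d0_lin (E0 χ)⟩
    | k + 1 => ⟨(dl χ (lv χ k).E (lv χ k).b).isBoundedLinearMap, dl_lin⟩
  bdd := fun k => match k with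
    | 0 => (tA (E0 χ) 1).isBoundedLinearMap
    | k + 1 => (ta χ (lv χ k).E).isBoundedLinearMap
  h0 := fun x => (d0_tA (E0 χ) 1 x).trans (uni_E0 χ x)
  hs := fun k => match k with
    | 0 => hmt0
    | k + 1 => hmt (lv χ k).b
  dd := fun k => match k with
    | 0 => d0_dl
    | k + 1 => (lv χ k).ok.dl_dl

/-- Evaluation of the first factor at the character. -/
noncomputable def es (M : LMod A) : (TA M).carrier →L[ℂ] M.carrier :=
  lA M ((ContinuousLinearMap.lsmul ℂ ℂ : ℂ →L[ℂ] M.carrier →L[ℂ] M.carrier).comp χ.ε)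

lemma es_tA (M : LMod A) (a : A) (x : M.carrier) : es χ M (tA M a x) = χ.ε a • x :=
  lA_tA M _ a x

lemma es_aM (M : LMod A) (a : A) (y : (TA M).carrier) :
    es χ M (aM (TA M) a y) = χ.ε a • es χ M y := by
  refine extA M (f := (es χ M).comp (aM (TA M) a)) (g := χ.ε a • es χ M) (fun b x => ?_) y
  show es χ M (aM (TA M) a (tA M b x)) = χ.ε a • es χ M (tA M b x)
  rw [aM_tA, es_tA, es_tA, χ.mul, mul_smul]

lemma es_inc (M : LMod A) (y : (TJ χ M).carrier) : es χ M (inc χ M y) = 0 := by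
  refine extJ χ M (f := (es χ M).comp (inc χ M)) (g := 0) (fun j x => ?_) y
  rw [ContinuousLinearMap.comp_apply, inc_tJ, es_tA, ε_coe, zero_smul]
  rfl

lemma es_dl (E : LMod A) (b : (TJ χ E).carrier →L[ℂ] E.carrier) (y : (TA (TJ χ E)).carrier) :
    es χ E (dl χ E b y) = - b (es χ (TJ χ E) y) := by
  refine extA (TJ χ E) (f := (es χ E).comp (dl χ E b)) (g := - b.comp (es χ (TJ χ E)))
    (fun a x => ?_) y
  show es χ E (dl χ E b (tA (TJ χ E) a x)) = - b (es χ (TJ χ E) (tA (TJ χ E) a x))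
  rw [dl_tA, map_sub, es_inc, es_tA, es_tA, map_smul, zero_sub]

theorem exists_T_aux {E : LMod A} {b : (TJ χ E).carrier →L[ℂ] E.carrier} (hb : Ok χ E b)
    (H : (TA (TJ χ E)).carrier →L[ℂ] (TA (TJ χ (TJ χ E))).carrier)
    (hH : ∀ a y, H (aM (TA (TJ χ E)) a y) = aM (TA (TJ χ (TJ χ E))) a (H y))
    (h1 : ∀ y, dl χ (TJ χ E) (nb χ E b) (H (dl χ (TJ χ E) (nb χ E b) y)) =
      dl χ (TJ χ E) (nb χ E b) y) :
    ∃ T : (TJ χ E).carrier →L[ℂ] (TJ χ E).carrier,
      (∀ e, b (T e) = b e) ∧ ∀ y, T (nb χ E b y) = 0 := by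
  let P : (TA (TJ χ E)).carrier →L[ℂ] (TA (TJ χ E)).carrier :=
    ContinuousLinearMap.id ℂ _ - (dl χ (TJ χ E) (nb χ E b)).comp H
  have hP : ∀ y, P y = y - dl χ (TJ χ E) (nb χ E b) (H y) := fun _ => rfl
  have hPlin : ∀ a y, P (aM (TA (TJ χ E)) a y) = aM (TA (TJ χ E)) a (P y) := by
    intro a y
    rw [hP, hP, hH, dl_lin, map_sub]
  have hP1 : ∀ y, P (dl χ (TJ χ E) (nb χ E b) y) = 0 := by
    intro y
    rw [hP, h1, sub_self]
  have hP2 : ∀ y, dl χ E b (P y) = dl χ E b y := by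
    intro y
    rw [hP, map_sub, hb.dl_dl, sub_zero]
  refine ⟨(es χ (TJ χ E)).comp (P.comp (tA (TJ χ E) 1)), fun e => ?_, fun y => ?_⟩
  · show b (es χ (TJ χ E) (P (tA (TJ χ E) 1 e))) = b e
    have h1 := es_dl χ E b (P (tA (TJ χ E) 1 e))
    rw [hP2, es_dl, es_tA, χ.one, one_smul] at h1
    exact (neg_injective h1).symm
  · show es χ (TJ χ E) (P (tA (TJ χ E) 1 (nb χ E b y))) = 0
    have h2 := hP1 (tA (TJ χ (TJ χ E)) 1 y)
    rw [dl_tA, uni_TJ, map_sub, sub_eq_zero] at h2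
    rw [← h2]
    refine extJ χ (TJ χ E) (f := (es χ (TJ χ E)).comp (P.comp (inc χ (TJ χ E)))) (g := 0)
      (fun j x => ?_) y
    show es χ (TJ χ E) (P (inc χ (TJ χ E) (tJ χ (TJ χ E) j x))) = 0
    have h3 : inc χ (TJ χ E) (tJ χ (TJ χ E) j x) =
        aM (TA (TJ χ E)) (j : A) (tA (TJ χ E) 1 x) := by
      rw [inc_tJ, aM_tA, mul_one]
    rw [h3, hPlin, es_aM, ε_coe, zero_smul]

theorem exists_T {X : LMod A} (i : ℂ ≃L[ℂ] X.carrier) (hX : ∀ a z, X.act a (i z) = i (χ.ε a * z))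
    (n : ℕ) (hR : X.HasResolution (n + 1)) :
    ∃ T : (TJ χ (lv χ n).E).carrier →L[ℂ] (TJ χ (lv χ n).E).carrier,
      (∀ e, (lv χ n).b (T e) = (lv χ n).b e) ∧ ∀ y, T (nb χ (lv χ n).E (lv χ n).b y) = 0 := by
  obtain ⟨R, hR⟩ := hR
  have e1 : LMod.IsHom (E0 χ) X (fun z => i z) := by
    refine ⟨(i : ℂ →L[ℂ] X.carrier).isBoundedLinearMap, fun a z => ?_⟩
    exact (hX a z).symm
  have e2 : LMod.IsHom X (E0 χ) (fun z => i.symm z) := by
    refine ⟨(i.symm : X.carrier →L[ℂ] ℂ).isBoundedLinearMap, fun a z => ?_⟩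
    obtain ⟨z, rfl⟩ := i.surjective z
    have h1 := hX a z
    rw [h1]
    show i.symm (i (χ.ε a * z)) = χ.ε a * i.symm (i z)
    rw [ContinuousLinearEquiv.symm_apply_apply, ContinuousLinearEquiv.symm_apply_apply]
  obtain ⟨f, g, h, hf, hg, hh, ha, hb, hc⟩ := main (CC χ) (QC R)
    (fun k => TA_lifts _) (fun k => proj_lifts _ (R.projective k)) (fun z => i z)
    (fun z => i.symm z) e1 e2 (fun z => i.symm_apply_apply z) (n + 2)
  have hz : ∀ x, f ((CC χ).δ (n + 2) x) = 0 := by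
    intro x
    have h1 := ha x
    have : Subsingleton (R.P (n + 2)).carrier := hR (n + 2) (Nat.lt_succ_self _)
    have h2 : (QC R).τ (n + 2) (f ((CC χ).δ (n + 2) x)) = 0 :=
      Subsingleton.elim (α := (R.P (n + 2)).carrier) _ _
    rw [h2, ((QC R).hom (n + 2)).1.toIsLinearMap.map_zero] at h1
    exact h1.symm
  refine exists_T_aux χ (lv χ n).ok hh.1.toContinuousLinearMap hh.2 fun y => ?_
  have h1 : (CC χ).δ (n + 2) (h ((CC χ).δ (n + 2) y)) =
      (CC χ).δ (n + 2) y - g (f ((CC χ).δ (n + 2) y)) := hc y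
  rw [hz y] at h1
  have h2 : g 0 = 0 := hg.1.toIsLinearMap.map_zero
  rw [h2] at h1
  exact h1.trans (sub_zero _)

end Pool.Agent.W667.BN
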