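import Pool.Agent.W667.BN.A1

set_option autoImplicit false
set_option linter.unusedSectionVars false
set_option maxSynthPendingDepth 3

/-!
Evaluations on the tensor powers.
-/

namespace Pool.Agent.W667.BN

open Pool.Agent.Helper832.CD Pool.Agent.Helper832.GD Pool.Agent.H817R4.DF

/-- A Banach algebra with a sequence of characters which represent it as the algebra of all bounded
sequences. -/
structure Dat (A : Type) [NormedRing A] [NormedAlgebra ℂ A] where
  pt : ℕ → A →L[ℂ] ℂ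
  le : ∀ n a, ‖pt n a‖ ≤ ‖a‖
  nrm : ∀ a C, 0 ≤ C → (∀ n, ‖pt n a‖ ≤ C) → ‖a‖ ≤ C
  mul : ∀ n a b, pt n (a * b) = pt n a * pt n b
  one : ∀ n, pt n 1 = 1
  ext : ∀ (f : ℕ → ℂ) (C : ℝ), (∀ n, ‖f n‖ ≤ C) → ∃ a, ∀ n, pt n a = f n

variable {A : Type} [NormedRing A] [NormedAlgebra ℂ A] [CompleteSpace A]

lemma Dat.inj (D : Dat A) {a b : A} (h : ∀ n, D.pt n a = D.pt n b) : a = b := by
  rw [← sub_eq_zero, ← norm_le_zero_iff]
  refine D.nrm _ 0 le_rfl fun n => ?_
  rw [map_sub, h, sub_self, norm_zero]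

variable (D : Dat A) (χ : Chr A)

/-- Evaluation on the kernel. -/
noncomputable def pJ (n : ℕ) : JJ χ →L[ℂ] ℂ := (D.pt n).comp (JJ χ).subtypeL

lemma pJ_apply (n : ℕ) (j : JJ χ) : pJ D χ n j = D.pt n (j : A) := rfl

lemma pJ_le (n : ℕ) (j : JJ χ) : ‖pJ D χ n j‖ ≤ ‖j‖ := D.le n (j : A)

lemma pJ_nrm (j : JJ χ) (C : ℝ) (hC : 0 ≤ C) (h : ∀ n, ‖pJ D χ n j‖ ≤ C) : ‖j‖ ≤ C :=
  D.nrm (j : A) C hC h

lemma pJ_inj {j j' : JJ χ} (h : ∀ n, pJ D χ n j = pJ D χ n j') : j = j' :=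
  Subtype.ext (D.inj h)

lemma pJ_mulJ (n : ℕ) (a : A) (j : JJ χ) : pJ D χ n (mulJ χ a j) = D.pt n a * pJ D χ n j :=
  D.mul n a _

/-- Evaluation of one factor more. -/
noncomputable def evn (E : LMod A) (φ : E.carrier →L[ℂ] ℂ) (n : ℕ) :
    (TJ χ E).carrier →L[ℂ] ℂ := lJ χ E ((pJ D χ n).smulRight φ)

@[simp] lemma evn_tJ (E : LMod A) (φ : E.carrier →L[ℂ] ℂ) (n : ℕ) (j : JJ χ) (y : E.carrier) :
    evn D χ E φ n (tJ χ E j y) = pJ D χ n j * φ y := lJ_tJ χ E _ j y

lemma evn_norm (E : LMod A) (φ : E.carrier →L[ℂ] ℂ) (n : ℕ) (h : ‖φ‖ ≤ 1) :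
    ‖evn D χ E φ n‖ ≤ 1 := by
  refine (norm_lift_le (P := JJ χ) (Q := E.carrier) (Q' := ℂ) ((pJ D χ n).smulRight φ)).trans ?_
  rw [ContinuousLinearMap.norm_smulRight_apply]
  have h1 : ‖pJ D χ n‖ ≤ 1 := ContinuousLinearMap.opNorm_le_bound _ zero_le_one fun j => by
    rw [one_mul]
    exact pJ_le D χ n j
  calc ‖pJ D χ n‖ * ‖φ‖ ≤ 1 * 1 := mul_le_mul h1 h (norm_nonneg _) zero_le_one
    _ = 1 := one_mul 1

lemma evn_aM (E : LMod A) (φ : E.carrier →L[ℂ] ℂ) (n : ℕ) (a : A) (y : (TJ χ E).carrier) :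
    evn D χ E φ n (aM (TJ χ E) a y) = D.pt n a * evn D χ E φ n y := by
  refine extJ χ E (f := (evn D χ E φ n).comp (aM (TJ χ E) a)) (g := D.pt n a • evn D χ E φ n)
    (fun j x => ?_) y
  show evn D χ E φ n (aM (TJ χ E) a (tJ χ E j x)) = D.pt n a * evn D χ E φ n (tJ χ E j x)
  rw [aM_tJ, evn_tJ, evn_tJ, pJ_mulJ, mul_assoc]

/-- The evaluations. -/
noncomputable def ev : ∀ k, (Fin k → ℕ) → (lv χ k).E.carrier →L[ℂ] ℂ
  | 0, _ => (ContinuousLinearMap.id ℂ ℂ : ℂ →L[ℂ] ℂ)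
  | k + 1, x => evn D χ (lv χ k).E (ev k (Fin.tail x)) (x 0)

lemma ev_norm : ∀ k (x : Fin k → ℕ), ‖ev D χ k x‖ ≤ 1
  | 0, _ => ContinuousLinearMap.norm_id_le
  | k + 1, x => evn_norm D χ (lv χ k).E (ev D χ k (Fin.tail x)) (x 0) (ev_norm k _)

/-- Finite colourings. -/
lemma ev_col : ∀ k (e : (lv χ k).E.carrier) (ε : ℝ), 0 < ε → ∃ (N : ℕ) (c : ℕ → Fin N),
    ∀ x x' : Fin k → ℕ, (∀ i, c (x i) = c (x' i)) → ‖ev D χ k x e - ev D χ k x' e‖ ≤ ε
  | 0, e, ε, hε => ⟨1, fun _ => 0, fun x x' _ => by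
      have : x = x' := Subsingleton.elim _ _
      rw [this, sub_self, norm_zero]
      exact hε.le⟩
  | k + 1, e, ε, hε => by
    let S : Submodule ℂ (Tens (JJ χ) (lv χ k).E.carrier) :=
      { carrier := {e | ∀ ε : ℝ, 0 < ε → ∃ (N : ℕ) (c : ℕ → Fin N),
          ∀ x x' : Fin (k + 1) → ℕ, (∀ i, c (x i) = c (x' i)) →
            ‖ev D χ (k + 1) x e - ev D χ (k + 1) x' e‖ ≤ ε}
        zero_mem' := fun ε hε => ⟨1, fun _ => 0, fun x x' _ => by
          have h1 : ev D χ (k + 1) x 0 = 0 := map_zero _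
          have h2 : ev D χ (k + 1) x' 0 = 0 := map_zero _
          refine le_of_eq_of_le (b := ‖(0 : ℂ)‖) (congrArg _ ?_) (by rw [norm_zero]; exact hε.le)
          exact (congrArg₂ (· - ·) h1 h2).trans (sub_zero 0)⟩
        add_mem' := by
          intro a b ha hb ε hε
          obtain ⟨N, c, hc⟩ := ha (ε / 2) (half_pos hε)
          obtain ⟨N', c', hc'⟩ := hb (ε / 2) (half_pos hε)
          refine ⟨N * N', fun n => finProdFinEquiv (c n, c' n), fun x x' h => ?_⟩
          have h1 := hc x x' fun i => (Prod.ext_iff.1 (finProdFinEquiv.injective (h i))).1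
          have h2 := hc' x x' fun i => (Prod.ext_iff.1 (finProdFinEquiv.injective (h i))).2
          have h3 : ev D χ (k + 1) x (a + b) - ev D χ (k + 1) x' (a + b) =
              (ev D χ (k + 1) x a - ev D χ (k + 1) x' a) +
              (ev D χ (k + 1) x b - ev D χ (k + 1) x' b) := by
            have e1 : ev D χ (k + 1) x (a + b) = ev D χ (k + 1) x a + ev D χ (k + 1) x b :=
              map_add _ _ _
            have e2 : ev D χ (k + 1) x' (a + b) = ev D χ (k + 1) x' a + ev D χ (k + 1) x' b :=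
              map_add _ _ _
            rw [e1, e2]
            ring
          rw [h3]
          exact (norm_add_le _ _).trans (by linarith)
        smul_mem' := by
          intro z a ha ε hε
          obtain ⟨N, c, hc⟩ := ha (ε / (‖z‖ + 1)) (by positivity)
          refine ⟨N, c, fun x x' h => ?_⟩
          have h3 : ev D χ (k + 1) x (z • a) - ev D χ (k + 1) x' (z • a) =
              z * (ev D χ (k + 1) x a - ev D χ (k + 1) x' a) := by
            have e1 : ev D χ (k + 1) x (z • a) = z * ev D χ (k + 1) x a := map_smul _ _ _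
            have e2 : ev D χ (k + 1) x' (z • a) = z * ev D χ (k + 1) x' a := map_smul _ _ _
            rw [e1, e2]
            ring
          rw [h3, norm_mul]
          have h4 := hc x x' h
          calc ‖z‖ * ‖ev D χ (k + 1) x a - ev D χ (k + 1) x' a‖ ≤ ‖z‖ * (ε / (‖z‖ + 1)) :=
                mul_le_mul_of_nonneg_left h4 (norm_nonneg _)
            _ ≤ ε := by
                rw [mul_div_assoc', div_le_iff₀ (by positivity)]
                nlinarith [norm_nonneg z] }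
    have hS : IsClosed (S : Set (Tens (JJ χ) (lv χ k).E.carrier)) := by
      refine isClosed_of_closure_subset fun e he ε hε => ?_
      obtain ⟨a, ha, hd⟩ := Metric.mem_closure_iff.1 he (ε / 4) (by positivity)
      obtain ⟨N, c, hc⟩ := ha (ε / 2) (half_pos hε)
      refine ⟨N, c, fun x x' h => ?_⟩
      have hb : ∀ x : Fin (k + 1) → ℕ, ‖ev D χ (k + 1) x e - ev D χ (k + 1) x a‖ ≤ ε / 4 := by
        intro x
        have e1 : ev D χ (k + 1) x e - ev D χ (k + 1) x a = ev D χ (k + 1) x (e - a) :=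
          (map_sub _ _ _).symm
        rw [e1]
        refine ((ev D χ (k + 1) x).le_opNorm _).trans ?_
        have e2 : ‖(e - a : (lv χ (k + 1)).E.carrier)‖ ≤ ε / 4 := by
          have := hd.le
          rw [dist_eq_norm] at this
          exact this
        calc ‖ev D χ (k + 1) x‖ * ‖(e - a : (lv χ (k + 1)).E.carrier)‖ ≤ 1 * (ε / 4) :=
              mul_le_mul (ev_norm D χ (k + 1) x) e2 (norm_nonneg _) zero_le_one
          _ = ε / 4 := one_mul _
      have h1 := hb x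
      have h2 := hb x'
      have h3 := hc x x' h
      have h4 : ev D χ (k + 1) x e - ev D χ (k + 1) x' e =
        (ev D χ (k + 1) x e - ev D χ (k + 1) x a) + (ev D χ (k + 1) x a - ev D χ (k + 1) x' a) -
          (ev D χ (k + 1) x' e - ev D χ (k + 1) x' a) := by ring
      rw [h4]
      refine (norm_sub_le _ _).trans ?_
      have := norm_add_le (ev D χ (k + 1) x e - ev D χ (k + 1) x a)
        (ev D χ (k + 1) x a - ev D χ (k + 1) x' a)
      linarith
    refine tens_closed S hS (fun j y => ?_) e ε hε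
    intro ε hε
    -- colouring of `y`
    obtain ⟨N, c, hc⟩ := ev_col k y (ε / (2 * (‖j‖ + 1))) (by positivity)
    -- colouring of `j`
    have hj : ∃ (N' : ℕ) (c' : ℕ → Fin N'), ∀ n n', c' n = c' n' →
        ‖pJ D χ n j - pJ D χ n' j‖ ≤ ε / (2 * (‖y‖ + 1)) := by
      have hK : IsCompact (Metric.closedBall (0 : ℂ) ‖j‖) := isCompact_closedBall _ _
      obtain ⟨t, ht, htc⟩ := hK.finite_cover_balls (e := ε / (4 * (‖y‖ + 1))) (by positivity)
      have hcov : ∀ n, ∃ z : t, dist (pJ D χ n j) z ≤ ε / (4 * (‖y‖ + 1)) := by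
        intro n
        have h1 : pJ D χ n j ∈ Metric.closedBall (0 : ℂ) ‖j‖ := by
          rw [mem_closedBall_zero_iff]
          exact pJ_le D χ n j
        obtain ⟨z, hz, hz2⟩ := Set.mem_iUnion₂.1 (htc.2 h1)
        exact ⟨⟨z, hz⟩, (Metric.mem_ball.1 hz2).le⟩
      choose g hg using hcov
      have : Finite t := htc.1
      obtain ⟨N', ⟨eq⟩⟩ := Finite.exists_equiv_fin t
      refine ⟨N', fun n => eq (g n), fun n n' h => ?_⟩
      have h1 : g n = g n' := eq.injective h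
      have h2 := hg n
      have h3 := hg n'
      rw [← h1] at h3
      rw [← dist_eq_norm]
      refine (dist_triangle_right _ _ (g n : ℂ)).trans ?_
      have h4 : ε / (4 * (‖y‖ + 1)) + ε / (4 * (‖y‖ + 1)) = ε / (2 * (‖y‖ + 1)) := by
        field_simp
        ring
      linarith
    obtain ⟨N', c', hc'⟩ := hj
    refine ⟨N * N', fun n => finProdFinEquiv (c n, c' n), fun x x' h => ?_⟩
    have h1 := hc (Fin.tail x) (Fin.tail x') fun i =>
      (Prod.ext_iff.1 (finProdFinEquiv.injective (h i.succ))).1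
    have h2 := hc' (x 0) (x' 0) (Prod.ext_iff.1 (finProdFinEquiv.injective (h 0))).2
    have e1 : ev D χ (k + 1) x (tens j y) = pJ D χ (x 0) j * ev D χ k (Fin.tail x) y :=
      evn_tJ D χ (lv χ k).E _ _ j y
    have e2 : ev D χ (k + 1) x' (tens j y) = pJ D χ (x' 0) j * ev D χ k (Fin.tail x') y :=
      evn_tJ D χ (lv χ k).E _ _ j y
    have e3 : ev D χ (k + 1) x (tens j y) - ev D χ (k + 1) x' (tens j y) =
      (pJ D χ (x 0) j - pJ D χ (x' 0) j) * ev D χ k (Fin.tail x) y +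
        pJ D χ (x' 0) j * (ev D χ k (Fin.tail x) y - ev D χ k (Fin.tail x') y) := by
      rw [e1, e2]
      ring
    rw [e3]
    refine (norm_add_le _ _).trans ?_
    rw [norm_mul, norm_mul]
    have h5 : ‖ev D χ k (Fin.tail x) y‖ ≤ ‖y‖ := by
      refine ((ev D χ k (Fin.tail x)).le_opNorm _).trans ?_
      calc ‖ev D χ k (Fin.tail x)‖ * ‖y‖ ≤ 1 * ‖y‖ :=
            mul_le_mul_of_nonneg_right (ev_norm D χ k _) (norm_nonneg _)
        _ = ‖y‖ := one_mul _
    have h6 : ‖pJ D χ (x' 0) j‖ ≤ ‖j‖ := pJ_le D χ _ j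
    have h7 : ‖pJ D χ (x 0) j - pJ D χ (x' 0) j‖ * ‖ev D χ k (Fin.tail x) y‖ ≤ ε / 2 := by
      calc _ ≤ ε / (2 * (‖y‖ + 1)) * ‖y‖ := mul_le_mul h2 h5 (norm_nonneg _) (by positivity)
        _ ≤ ε / 2 := by
          rw [div_mul_eq_mul_div, div_le_div_iff₀ (by positivity) (by positivity)]
          nlinarith [norm_nonneg y]
    have h8 : ‖pJ D χ (x' 0) j‖ * ‖ev D χ k (Fin.tail x) y - ev D χ k (Fin.tail x') y‖ ≤ ε / 2 := by
      calc _ ≤ ‖j‖ * (ε / (2 * (‖j‖ + 1))) := mul_le_mul h6 h1 (norm_nonneg _) (norm_nonneg _)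
        _ ≤ ε / 2 := by
          rw [mul_div_assoc', div_le_div_iff₀ (by positivity) (by positivity)]
          nlinarith [norm_nonneg j]
    linarith

/-- Slices. -/
lemma ev_slice : ∀ k (l : Fin k) (x : Fin k → ℕ), ∃ s : (lv χ k).E.carrier →L[ℂ] JJ χ,
    ∀ e X, ev D χ k (Function.update x l X) e = pJ D χ X (s e)
  | 0, l, _ => l.elim0
  | k + 1, l, x => by
    refine Fin.cases ?_ (fun i => ?_) l
    · let φ := ev D χ k (Fin.tail x)
      let s : (TJ χ (lv χ k).E).carrier →L[ℂ] JJ χ :=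
        lJ χ (lv χ k).E (ContinuousLinearMap.smulRightL ℂ (lv χ k).E.carrier (JJ χ) φ)
      refine ⟨s, fun e X => ?_⟩
      have h1 : ev D χ (k + 1) (Function.update x 0 X) = evn D χ (lv χ k).E φ X := by
        show evn D χ (lv χ k).E (ev D χ k (Fin.tail (Function.update x 0 X)))
          (Function.update x 0 X 0) = _
        rw [Fin.tail_update_zero, Function.update_self]
      rw [h1]
      refine extJ χ (lv χ k).E (f := evn D χ (lv χ k).E φ X) (g := (pJ D χ X).comp s)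
        (fun j y => ?_) e
      rw [evn_tJ, ContinuousLinearMap.comp_apply]
      show _ = pJ D χ X (lJ χ (lv χ k).E _ (tJ χ (lv χ k).E j y))
      rw [lJ_tJ]
      show _ = pJ D χ X (φ y • j)
      rw [map_smul, smul_eq_mul, mul_comm]
    · obtain ⟨s, hs⟩ := ev_slice k i (Fin.tail x)
      let s' : (TJ χ (lv χ k).E).carrier →L[ℂ] JJ χ :=
        lJ χ (lv χ k).E ((pJ D χ (x 0)).smulRight s)
      refine ⟨s', fun e X => ?_⟩
      have h1 : ev D χ (k + 1) (Function.update x i.succ X) =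
          evn D χ (lv χ k).E (ev D χ k (Function.update (Fin.tail x) i X)) (x 0) := by
        show evn D χ (lv χ k).E (ev D χ k (Fin.tail (Function.update x i.succ X)))
          (Function.update x i.succ X 0) = _
        rw [Fin.tail_update_succ, Function.update_of_ne (Fin.succ_ne_zero i).symm]
      rw [h1]
      refine extJ χ (lv χ k).E
        (f := evn D χ (lv χ k).E (ev D χ k (Function.update (Fin.tail x) i X)) (x 0))
        (g := (pJ D χ X).comp s') (fun j y => ?_) e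
      rw [evn_tJ, ContinuousLinearMap.comp_apply]
      show _ = pJ D χ X (lJ χ (lv χ k).E _ (tJ χ (lv χ k).E j y))
      rw [lJ_tJ]
      show _ = pJ D χ X (pJ D χ (x 0) j • s y)
      rw [map_smul, smul_eq_mul, hs]

lemma pred_zero (k : ℕ) (x : Fin (k + 1) → ℕ) :
    x ((0 : Fin (k + 1)).predAbove 0) = x 0 ∧
      Fin.tail (fun j => x ((0 : Fin (k + 1)).predAbove j)) = x := by
  refine ⟨?_, ?_⟩
  · rw [Fin.predAbove_right_zero]
  · funext j
    show x ((0 : Fin (k + 1)).predAbove j.succ) = x j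
    rw [Fin.predAbove_zero_succ]

lemma pred_succ (k : ℕ) (i : Fin k) (x : Fin (k + 1) → ℕ) :
    x (i.succ.predAbove 0) = x 0 ∧
      Fin.tail (fun j => x (i.succ.predAbove j)) = fun j => Fin.tail x (i.predAbove j) := by
  refine ⟨?_, ?_⟩
  · rw [Fin.predAbove_right_zero]
  · funext j
    show x (i.succ.predAbove j.succ) = x (i.predAbove j).succ
    rw [Fin.succ_predAbove_succ]

lemma ev_b_zero (φ : (E0 χ).carrier →L[ℂ] ℂ) (e : (TJ χ (E0 χ)).carrier) :
    φ (b0 χ e) = 0 := by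
  refine extJ χ (E0 χ) (f := φ.comp (b0 χ)) (g := 0) (fun j y => ?_) e
  rw [ContinuousLinearMap.comp_apply, b0_tJ]
  have h1 : aM (E0 χ) (j : A) y = 0 := by
    rw [aM_E0, ε_coe, zero_smul]
    rfl
  rw [h1, map_zero]
  rfl

/-- The inductive step for the boundary operator. -/
lemma ev_b_succ (E : LMod A) (b : (TJ χ E).carrier →L[ℂ] E.carrier) (k : ℕ)
    (x : Fin (k + 1) → ℕ) (φ : (Fin k → ℕ) → E.carrier →L[ℂ] ℂ)
    (ψ : (Fin (k + 1) → ℕ) → (TJ χ E).carrier →L[ℂ] ℂ)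
    (hψ : ∀ x, ψ x = evn D χ E (φ (Fin.tail x)) (x 0))
    (ih : ∀ (x : Fin k → ℕ) (e : (TJ χ E).carrier), φ x (b e) =
      ∑ i : Fin k, (-1 : ℂ) ^ (i : ℕ) * ψ (fun j => x (i.predAbove j)) e)
    (e : (TJ χ (TJ χ E)).carrier) :
    ψ x (nb χ E b e) =
      ∑ i : Fin (k + 1), (-1 : ℂ) ^ (i : ℕ) *
        evn D χ (TJ χ E) (ψ (Fin.tail (fun j => x (i.predAbove j)))) (x (i.predAbove 0)) e := by
  have h0 : ∀ e, ∑ i : Fin (k + 1), (-1 : ℂ) ^ (i : ℕ) *
      evn D χ (TJ χ E) (ψ (Fin.tail (fun j => x (i.predAbove j)))) (x (i.predAbove 0)) e =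
      (∑ i : Fin (k + 1), (-1 : ℂ) ^ (i : ℕ) •
        evn D χ (TJ χ E) (ψ (Fin.tail (fun j => x (i.predAbove j)))) (x (i.predAbove 0))) e := by
    intro e
    rw [ContinuousLinearMap.sum_apply]
    rfl
  rw [h0]
  refine extJ χ (TJ χ E) (f := (ψ x).comp (nb χ E b))
    (g := (∑ i : Fin (k + 1), (-1 : ℂ) ^ (i : ℕ) •
        evn D χ (TJ χ E) (ψ (Fin.tail (fun j => x (i.predAbove j)))) (x (i.predAbove 0))))
    (fun j y => ?_) e
  refine Eq.trans ?_ (h0 (tJ χ (TJ χ E) j y))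
  rw [ContinuousLinearMap.comp_apply, nb_tJ, map_sub, hψ x, evn_aM, evn_tJ, ih (Fin.tail x) y,
    Fin.sum_univ_succ, (pred_zero k x).1, (pred_zero k x).2, evn_tJ, hψ x]
  have h2 : ∀ i : Fin k, (-1 : ℂ) ^ ((i.succ : Fin (k + 1)) : ℕ) *
      evn D χ (TJ χ E) (ψ (Fin.tail (fun j => x (i.succ.predAbove j)))) (x (i.succ.predAbove 0))
        (tJ χ (TJ χ E) j y) =
      - (pJ D χ (x 0) j * ((-1 : ℂ) ^ (i : ℕ) *
        ψ (fun j => Fin.tail x (i.predAbove j)) y)) := by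
    intro i
    rw [(pred_succ k i x).1, (pred_succ k i x).2, evn_tJ, Fin.val_succ, pow_succ]
    ring
  rw [Finset.sum_congr rfl fun i _ => h2 i, Finset.sum_neg_distrib, ← Finset.mul_sum]
  have h3 : (-1 : ℂ) ^ ((0 : Fin (k + 1)) : ℕ) = 1 := by
    rw [Fin.val_zero, pow_zero]
  rw [h3, one_mul, sub_eq_add_neg]
  rfl

/-- The boundary operator in terms of evaluations. -/
lemma ev_b : ∀ k (x : Fin k → ℕ) (e : (TJ χ (lv χ k).E).carrier),
    ev D χ k x ((lv χ k).b e) =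
      ∑ i : Fin k, (-1 : ℂ) ^ (i : ℕ) * ev D χ (k + 1) (fun j => x (i.predAbove j)) e
  | 0, x, e => by
    rw [Finset.univ_eq_empty, Finset.sum_empty]
    exact ev_b_zero χ _ e
  | k + 1, x, e =>
    ev_b_succ D χ (lv χ k).E (lv χ k).b k x (ev D χ k) (ev D χ (k + 1)) (fun _ => rfl)
      (fun x e => ev_b k x e) e

end Pool.Agent.W667.BN
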