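import Pool.Agent.W667.BN.C3

set_option autoImplicit false
set_option linter.deprecated false
set_option linter.unusedSectionVars false

/-!
The combinatorial contradiction.
-/

namespace Pool.Agent.W667.BN

open Set

variable {r : ℕ} (B : (Fin (r + 2) → ℕ) → MultilinearMap ℂ (fun _ : Fin (r + 1) => LL) ℂ)

lemma update_ind (r : ℕ) (P : Fin (r + 1) → Set ℕ) (k : Fin (r + 1)) (D E : Set ℕ)
    (h1 : Disjoint D E) (h2 : P k = D ∪ E) :
    (fun i => ind (P i)) = Function.update (fun i => ind (P i)) k (ind D + ind E) := by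
  funext i
  by_cases hi : i = k
  · subst hi
    rw [Function.update_self]
    ext n
    show ind (P i) n = ind D n + ind E n
    rw [h2]
    by_cases hD : n ∈ D
    · rw [ind_of_mem (Or.inl hD), ind_of_mem hD, ind_of_notMem (Set.disjoint_left.1 h1 hD),
        add_zero]
    · by_cases hE : n ∈ E
      · rw [ind_of_mem (Or.inr hE), ind_of_mem hE, ind_of_notMem hD, zero_add]
      · rw [ind_of_notMem (fun h => h.elim hD hE), ind_of_notMem hD, ind_of_notMem hE, add_zero]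
  · rw [Function.update_of_ne hi]

lemma update_ind' (r : ℕ) (P : Fin (r + 1) → Set ℕ) (k : Fin (r + 1)) (D : Set ℕ) :
    Function.update (fun i => ind (P i)) k (ind D) = fun i => ind (Function.update P k D i) := by
  funext i
  by_cases hi : i = k
  · subst hi
    rw [Function.update_self, Function.update_self]
  · rw [Function.update_of_ne hi, Function.update_of_ne hi]

/-- Smallness at one pair of equal coordinates. -/
lemma dup (hcol : ∀ (f : Fin (r + 1) → LL) (ε : ℝ), 0 < ε → ∃ (N : ℕ) (c : ℕ → Fin N),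
      ∀ x x' : Fin (r + 2) → ℕ, (∀ i, c (x i) = c (x' i)) → ‖B x f - B x' f‖ ≤ ε)
    (δ : ℝ) (hδ : 0 < δ) (M : Set ℕ)
    (hM : ∀ f : Fin (r + 1) → LL, (∀ i, ‖f i‖ ≤ 1) → (∀ i, ∀ n, n ∉ M → f i n = 0) →
      (∀ i i', i ≠ i' → ∀ n, f i n = 0 ∨ f i' n = 0) → ∀ (x : Fin (r + 2) → ℕ) (l : Fin (r + 2)),
        (∀ k, x k ∈ M) →
        ∃ n0, ∀ X ∈ M, n0 ≤ X → (∀ i, f i X = 0) → ‖B (Function.update x l X) f‖ ≤ δ)
    (P : Fin (r + 1) → Set ℕ) (hP : ∀ i, P i ⊆ M) (hPd : ∀ i j, i ≠ j → Disjoint (P i) (P j))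
    (k : Fin (r + 1)) (K : Set ℕ) (hK : K.Infinite) (hKP : K ⊆ P k) (N : ℕ) (c : ℕ → Fin N)
    (t : Fin N) (hcK : ∀ n ∈ K, c n = t)
    (hc : ∀ x x' : Fin (r + 2) → ℕ, (∀ i, c (x i) = c (x' i)) →
      ‖B x (fun i => ind (P i)) - B x' (fun i => ind (P i))‖ ≤ δ)
    (y : Fin (r + 2) → ℕ) (hy : ∀ i, y i ∈ M) (p q : Fin (r + 2)) (hpq : p ≠ q)
    (hyp : c (y p) = t) (hyq : c (y q) = t) :
    ‖B y (fun i => ind (P i))‖ ≤ 5 * δ := by
  -- split the class
  obtain ⟨Q, hQ1, hQ2, hQ3⟩ := exists_parts K hK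
  have hQd : Disjoint (Q 0) (Q 1) := hQ3 0 1 zero_ne_one
  -- the two functions
  let P' : Fin (r + 1) → Set ℕ := Function.update P k (Q 0)
  let P'' : Fin (r + 1) → Set ℕ := Function.update P k (P k \ Q 0)
  have hP'k : P' k = Q 0 := Function.update_self ..
  have hP''k : P'' k = P k \ Q 0 := Function.update_self ..
  have hP'sub : ∀ i, P' i ⊆ P i := by
    intro i
    by_cases hi : i = k
    · rw [hi, hP'k]
      exact (hQ2 0).trans hKP
    · show Function.update P k (Q 0) i ⊆ P i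
      rw [Function.update_of_ne hi]
  have hP''sub : ∀ i, P'' i ⊆ P i := by
    intro i
    by_cases hi : i = k
    · rw [hi, hP''k]
      exact diff_subset
    · show Function.update P k (P k \ Q 0) i ⊆ P i
      rw [Function.update_of_ne hi]
  have hgen : ∀ R : Fin (r + 1) → Set ℕ, (∀ i, R i ⊆ P i) → ∀ (x : Fin (r + 2) → ℕ)
      (l : Fin (r + 2)), (∀ k, x k ∈ M) → ∃ n0, ∀ X ∈ M, n0 ≤ X → (∀ i, X ∉ R i) →
        ‖B (Function.update x l X) (fun i => ind (R i))‖ ≤ δ := by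
    intro R hR x l hx
    obtain ⟨n0, hn0⟩ := hM (fun i => ind (R i)) (fun i => ind_norm _)
      (fun i n hn => ind_of_notMem fun h => hn (hP i (hR i h)))
      (fun i j hij n => by
        by_cases hn : n ∈ R i
        · right
          exact ind_of_notMem fun h => Set.disjoint_left.1 (hPd i j hij) (hR i hn) (hR j h)
        · left
          exact ind_of_notMem hn) x l hx
    exact ⟨n0, fun X hX hX2 hX3 => hn0 X hX hX2 fun i => ind_of_notMem (hX3 i)⟩
  obtain ⟨N1, c1, hc1⟩ := hcol (fun i => ind (P' i)) δ hδ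
  obtain ⟨N2, c2, hc2⟩ := hcol (fun i => ind (P'' i)) δ hδ
  obtain ⟨D, hD1, hD2, t1, ht1⟩ := pigeon (Q 0) (hQ1 0) (N1 * N2)
    (fun n => finProdFinEquiv (c1 n, c2 n))
  obtain ⟨D', hD1', hD2', t2, ht2⟩ := pigeon (Q 1) (hQ1 1) (N1 * N2)
    (fun n => finProdFinEquiv (c1 n, c2 n))
  have hcD : ∀ n ∈ D, ∀ n' ∈ D, c1 n = c1 n' ∧ c2 n = c2 n' := by
    intro n hn n' hn'
    have h1 : finProdFinEquiv (c1 n, c2 n) = finProdFinEquiv (c1 n', c2 n') :=
      (ht1 n hn).trans (ht1 n' hn').symm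
    exact ⟨(Prod.ext_iff.1 (finProdFinEquiv.injective h1)).1,
      (Prod.ext_iff.1 (finProdFinEquiv.injective h1)).2⟩
  have hcD' : ∀ n ∈ D', ∀ n' ∈ D', c1 n = c1 n' ∧ c2 n = c2 n' := by
    intro n hn n' hn'
    have h1 : finProdFinEquiv (c1 n, c2 n) = finProdFinEquiv (c1 n', c2 n') :=
      (ht2 n hn).trans (ht2 n' hn').symm
    exact ⟨(Prod.ext_iff.1 (finProdFinEquiv.injective h1)).1,
      (Prod.ext_iff.1 (finProdFinEquiv.injective h1)).2⟩
  have hDM : ∀ n ∈ D, n ∈ M := fun n hn => hP k (hKP (hQ2 0 (hD1 hn)))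
  have hD'M : ∀ n ∈ D', n ∈ M := fun n hn => hP k (hKP (hQ2 1 (hD1' hn)))
  obtain ⟨a0, ha0⟩ := hD2.nonempty
  obtain ⟨b0, hb0⟩ := hD2'.nonempty
  -- generic point
  let w : ℕ → ℕ → Fin (r + 2) → ℕ := fun a b => Function.update (Function.update y p a) q b
  have hw : ∀ a b i, w a b i = if i = q then b else if i = p then a else y i := by
    intro a b i
    show Function.update (Function.update y p a) q b i = _
    by_cases h1 : i = q
    · rw [h1, Function.update_self, if_pos rfl]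
    · rw [Function.update_of_ne h1, if_neg h1]
      by_cases h2 : i = p
      · rw [h2, Function.update_self, if_pos rfl]
      · rw [Function.update_of_ne h2, if_neg h2]
  have hwM : ∀ a b, a ∈ M → b ∈ M → ∀ i, w a b i ∈ M := by
    intro a b ha hb i
    rw [hw]
    split_ifs
    · exact hb
    · exact ha
    · exact hy i
  have hcomm : ∀ a b, w a b = Function.update (Function.update y q b) p a := fun a b =>
    Function.update_comm hpq _ _ _
  -- the first function
  have hA : ∀ a ∈ D, ∀ b ∈ D', ‖B (w a b) (fun i => ind (P' i))‖ ≤ 2 * δ := by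
    intro a ha b hb
    obtain ⟨n0, hn0⟩ := hgen P' hP'sub (Function.update y p a) q (by
      intro i
      by_cases hi : i = p
      · rw [hi, Function.update_self]; exact hDM a ha
      · rw [Function.update_of_ne hi]; exact hy i)
    obtain ⟨b1, hb1, hb2⟩ := hD2'.exists_gt n0
    have h1 := hn0 b1 (hD'M b1 hb1) hb2.le (by
      intro i hi
      have hb1k : b1 ∈ P k := hKP (hQ2 1 (hD1' hb1))
      by_cases hik : i = k
      · rw [hik, hP'k] at hi
        exact Set.disjoint_left.1 hQd hi (hD1' hb1)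
      · exact Set.disjoint_left.1 (hPd i k hik) (hP'sub i hi) hb1k)
    have h2 := hc1 (w a b) (w a b1) (by
      intro i
      rw [hw, hw]
      split_ifs
      · exact (hcD' b hb b1 hb1).1
      · rfl
      · rfl)
    have h3 := norm_sub_norm_le (B (w a b) (fun i => ind (P' i))) (B (w a b1) (fun i => ind (P' i)))
    have h4 : ‖B (w a b1) (fun i => ind (P' i))‖ ≤ δ := h1
    linarith
  have hB' : ∀ a ∈ D, ∀ b ∈ D', ‖B (w a b) (fun i => ind (P'' i))‖ ≤ 2 * δ := by
    intro a ha b hb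
    obtain ⟨n0, hn0⟩ := hgen P'' hP''sub (Function.update y q b) p (by
      intro i
      by_cases hi : i = q
      · rw [hi, Function.update_self]; exact hD'M b hb
      · rw [Function.update_of_ne hi]; exact hy i)
    obtain ⟨a1, ha1, ha2⟩ := hD2.exists_gt n0
    have h1 := hn0 a1 (hDM a1 ha1) ha2.le (by
      intro i hi
      have ha1k : a1 ∈ P k := hKP (hQ2 0 (hD1 ha1))
      by_cases hik : i = k
      · rw [hik, hP''k] at hi
        exact hi.2 (hD1 ha1)
      · exact Set.disjoint_left.1 (hPd i k hik) (hP''sub i hi) ha1k)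
    have h2 := hc2 (w a b) (w a1 b) (by
      intro i
      rw [hw, hw]
      split_ifs
      · rfl
      · exact (hcD a ha a1 ha1).2
      · rfl)
    have h3 := norm_sub_norm_le (B (w a b) (fun i => ind (P'' i)))
      (B (w a1 b) (fun i => ind (P'' i)))
    have h4 : ‖B (w a1 b) (fun i => ind (P'' i))‖ ≤ δ := by
      rw [hcomm]
      exact h1
    linarith
  -- the sum
  have hsum : ∀ x, B x (fun i => ind (P i)) =
      B x (fun i => ind (P' i)) + B x (fun i => ind (P'' i)) := by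
    intro x
    have h0 : P k = Q 0 ∪ (P k \ Q 0) :=
      (union_diff_cancel ((hQ2 0).trans hKP)).symm
    rw [update_ind r P k (Q 0) (P k \ Q 0) disjoint_sdiff_right h0,
      MultilinearMap.map_update_add, update_ind', update_ind']
  have h5 := hA a0 ha0 b0 hb0
  have h6 := hB' a0 ha0 b0 hb0
  have h7 : ‖B (w a0 b0) (fun i => ind (P i))‖ ≤ 4 * δ := by
    rw [hsum]
    refine (norm_add_le _ _).trans ?_
    linarith
  have h8 := hc y (w a0 b0) (by
    intro i
    rw [hw]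
    split_ifs with e1 e2
    · rw [e1, hyq]
      exact (hcK b0 (hQ2 1 (hD1' hb0))).symm
    · rw [e2, hyp]
      exact (hcK a0 (hQ2 0 (hD1 ha0))).symm
    · rfl)
  have h9 := norm_sub_norm_le (B y (fun i => ind (P i))) (B (w a0 b0) (fun i => ind (P i)))
  linarith

/-- The combinatorial theorem. -/
theorem comb (C : ℝ) (hC : ∀ x f, (∀ i, ‖f i‖ ≤ 1) → ‖B x f‖ ≤ C)
    (M0 : Set ℕ) (hM0 : M0.Infinite)
    (hcol : ∀ (f : Fin (r + 1) → LL) (ε : ℝ), 0 < ε → ∃ (N : ℕ) (c : ℕ → Fin N),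
      ∀ x x' : Fin (r + 2) → ℕ, (∀ i, c (x i) = c (x' i)) → ‖B x f - B x' f‖ ≤ ε)
    (h3 : ∀ (z : Fin (r + 1) → ℕ) (l : Fin (r + 2)) (x : Fin (r + 2) → ℕ),
      Function.Injective z → (∀ i, z i ∈ M0) →
      (∀ k, x k ∈ M0) → ∀ ε : ℝ, 0 < ε → ∃ n0, ∀ X ∈ M0, n0 ≤ X →
        ‖B (Function.update x l X) fun i => ind {z i}‖ ≤ ε)
    (h4 : ∀ f : Fin (r + 1) → LL, (∀ i, ∀ n, n ∉ M0 → f i n = 0) →
      (∀ i i', i ≠ i' → ∀ n, f i n = 0 ∨ f i' n = 0) → ∀ x : Fin (r + 1) → ℕ,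
      ‖∏ i, f i (x i)‖ ≤ ∑ i : Fin (r + 1), ‖B (fun j => x (i.predAbove j)) f‖) : False := by
  let δ : ℝ := 1 / (5 * ((r : ℝ) + 1) + 1)
  have hδ : 0 < δ := by positivity
  obtain ⟨M, hM1, hM2, hM3⟩ := key B C hC M0 h3 hM0 δ hδ
  obtain ⟨R, hR1, hR2, hR3⟩ := exists_parts M hM2
  let P : Fin (r + 1) → Set ℕ := fun i => R i
  have hPd : ∀ i j, i ≠ j → Disjoint (P i) (P j) := fun i j hij =>
    hR3 i j fun h => hij (Fin.ext h)
  obtain ⟨N, c, hc⟩ := hcol (fun i => ind (P i)) δ hδ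
  have hK : ∀ i : Fin (r + 1), ∃ K ⊆ P i, K.Infinite ∧ ∃ t, ∀ n ∈ K, c n = t := fun i =>
    pigeon (P i) (hR1 i) N c
  choose K hK1 hK2 t hK3 using hK
  choose x hx using fun i => (hK2 i).nonempty
  have h5 : ∀ k : Fin (r + 1), ‖B (fun j => x (k.predAbove j)) (fun i => ind (P i))‖ ≤ 5 * δ := by
    intro k
    refine dup B hcol δ hδ M hM3 P (fun i => hR2 i) hPd k (K k) (hK2 k) (hK1 k) N c (t k)
      (hK3 k) hc (fun j => x (k.predAbove j)) (fun i => hR2 _ (hK1 _ (hx _))) k.castSucc k.succ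
      (Fin.castSucc_lt_succ).ne ?_ ?_
    · show c (x (k.predAbove k.castSucc)) = t k
      rw [Fin.predAbove_castSucc_self]
      exact hK3 k _ (hx k)
    · show c (x (k.predAbove k.succ)) = t k
      rw [Fin.predAbove_succ_self]
      exact hK3 k _ (hx k)
  have h6 := h4 (fun i => ind (P i)) (fun i n hn => ind_of_notMem fun h => hn (hM1 (hR2 i h)))
    (fun i j hij n => by
      by_cases hn : n ∈ P i
      · right
        exact ind_of_notMem (Set.disjoint_left.1 (hPd i j hij) hn)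
      · left
        exact ind_of_notMem hn) x
  have h7 : ∏ i, ind (P i) (x i) = 1 := Finset.prod_eq_one fun i _ => ind_of_mem (hK1 i (hx i))
  rw [h7, norm_one] at h6
  have h8 : ∑ i : Fin (r + 1), ‖B (fun j => x (i.predAbove j)) (fun i => ind (P i))‖ ≤
      ((r : ℝ) + 1) * (5 * δ) := by
    refine (Finset.sum_le_card_nsmul _ _ (5 * δ) fun i _ => h5 i).trans ?_
    rw [Finset.card_univ, Fintype.card_fin, nsmul_eq_mul]
    push_cast
    exact le_rfl
  have h9 : ((r : ℝ) + 1) * (5 * δ) < 1 := by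
    show ((r : ℝ) + 1) * (5 * (1 / (5 * ((r : ℝ) + 1) + 1))) < 1
    have hp : (0 : ℝ) < 5 * ((r : ℝ) + 1) + 1 := by positivity
    have e1 : ((r : ℝ) + 1) * (5 * (1 / (5 * ((r : ℝ) + 1) + 1))) =
        (5 * ((r : ℝ) + 1)) / (5 * ((r : ℝ) + 1) + 1) := by
      field_simp
    rw [e1, div_lt_one hp]
    linarith
  linarith

end Pool.Agent.W667.BN
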