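import Pool.Agent.W667.BN.A2
import Pool.Agent.W667.BN.C4

set_option autoImplicit false
set_option linter.deprecated false
set_option linter.unusedSectionVars false
set_option maxSynthPendingDepth 3

/-!
Chains of elementary tensors.
-/

namespace Pool.Agent.W667.BN

open Pool.Agent.Helper832.CD Pool.Agent.Helper832.GD Pool.Agent.H817R4.DF

section abs

variable {V : Type} [NormedAddCommGroup V] [NormedSpace ℂ V]
  {W W' : ℕ → Type} [∀ r, NormedAddCommGroup (W r)] [∀ r, NormedSpace ℂ (W r)]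
  [∀ r, NormedAddCommGroup (W' r)] [∀ r, NormedSpace ℂ (W' r)]
  (t : ∀ r, V →L[ℂ] W r →L[ℂ] W (r + 1)) (t' : ∀ r, V →L[ℂ] W' r →L[ℂ] W' (r + 1))

/-- Chains. -/
noncomputable def ch : ∀ r, (Fin r → V) → W 0 → W r
  | 0, _, y => y
  | r + 1, f, y => t r (f 0) (ch r (Fin.tail f) y)

/-- Chains as multilinear maps. -/
noncomputable def chM (y : W 0) : ∀ r, MultilinearMap ℂ (fun _ : Fin r => V) (W r)
  | 0 => MultilinearMap.constOfIsEmpty ℂ _ y
  | r + 1 => LinearMap.uncurryLeft (M := fun _ : Fin (r + 1) => V)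
      { toFun := fun v => (t r v : W r →ₗ[ℂ] W (r + 1)).compMultilinearMap (chM y r)
        map_add' := fun v v' => by
          ext m
          show t r (v + v') (chM y r m) = t r v (chM y r m) + t r v' (chM y r m)
          rw [map_add, ContinuousLinearMap.add_apply]
        map_smul' := fun c v => by
          ext m
          show t r (c • v) (chM y r m) = c • t r v (chM y r m)
          rw [map_smul, ContinuousLinearMap.smul_apply] }

lemma chM_apply (y : W 0) : ∀ r (f : Fin r → V), chM t y r f = ch t r f y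
  | 0, _ => rfl
  | r + 1, f => by
    show t r (f 0) (chM t y r (Fin.tail f)) = t r (f 0) (ch t r (Fin.tail f) y)
    rw [chM_apply y r]

lemma ch_norm (y : W 0) : ∀ r, ∃ C : ℝ, 0 ≤ C ∧ ∀ f : Fin r → V, (∀ i, ‖f i‖ ≤ 1) →
    ‖ch t r f y‖ ≤ C
  | 0 => ⟨‖y‖, norm_nonneg y, fun _ _ => le_rfl⟩
  | r + 1 => by
    obtain ⟨C, hC, h⟩ := ch_norm y r
    refine ⟨‖t r‖ * C, mul_nonneg (norm_nonneg _) hC, fun f hf => ?_⟩
    show ‖t r (f 0) (ch t r (Fin.tail f) y)‖ ≤ _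
    refine ((t r).le_opNorm₂ _ _).trans ?_
    refine mul_le_mul ?_ (h _ fun i => hf i.succ) (norm_nonneg _) (norm_nonneg _)
    calc ‖t r‖ * ‖f 0‖ ≤ ‖t r‖ * 1 := mul_le_mul_of_nonneg_left (hf 0) (norm_nonneg _)
      _ = ‖t r‖ := mul_one _

lemma ch_sub (y y' : W 0) : ∀ r (f : Fin r → V), ch t r f (y - y') = ch t r f y - ch t r f y'
  | 0, _ => rfl
  | r + 1, f => by
    show t r (f 0) (ch t r (Fin.tail f) (y - y')) =
      t r (f 0) (ch t r (Fin.tail f) y) - t r (f 0) (ch t r (Fin.tail f) y')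
    rw [ch_sub y y' r, map_sub]

/-- The boundary of a chain. -/
lemma ch_b (b : ∀ r, W' r →L[ℂ] W r) (a : ∀ r, V → W' r → W (r + 1)) (ort : V → V → Prop)
    (h1 : ∀ r j w, b (r + 1) (t' r j w) = a r j w - t r j (b r w))
    (h2 : ∀ r j j' w, ort j j' → a (r + 1) j (t' r j' w) = 0)
    (y : W 0) (w : W' 0) (hw : b 0 w = 0) :
    ∀ r (f : Fin (r + 1) → V), (∀ i j, i ≠ j → ort (f i) (f j)) →
      a 0 (f (Fin.last r)) w = t 0 (f (Fin.last r)) y →
      b (r + 1) (ch t' (r + 1) f w) = (-1 : ℂ) ^ r • ch t (r + 1) f y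
  | 0, f, _, hl => by
    show b 1 (t' 0 (f 0) w) = (-1 : ℂ) ^ 0 • t 0 (f 0) y
    rw [h1, hw, map_zero, sub_zero, pow_zero, one_smul]
    exact hl
  | r + 1, f, hf, hl => by
    show b (r + 2) (t' (r + 1) (f 0) (ch t' (r + 1) (Fin.tail f) w)) =
      (-1 : ℂ) ^ (r + 1) • t (r + 1) (f 0) (ch t (r + 1) (Fin.tail f) y)
    rw [h1, ch_b b a ort h1 h2 y w hw r (Fin.tail f)
      (fun i j hij => hf i.succ j.succ fun h => hij (Fin.succ_injective _ h)) hl]
    have h3 : a (r + 1) (f 0) (ch t' (r + 1) (Fin.tail f) w) = 0 :=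
      h2 r (f 0) (Fin.tail f 0) _ (hf 0 (Fin.succ 0) (Fin.succ_ne_zero 0).symm)
    rw [h3, map_smul, zero_sub, pow_succ, ← neg_smul]
    congr 1
    ring

end abs

variable {A : Type} [NormedRing A] [NormedAlgebra ℂ A] [CompleteSpace A]
variable (D : Dat A) (χ : Chr A)

/-- The chains ending in level zero. -/
noncomputable def t0 (r : ℕ) : JJ χ →L[ℂ] (lv χ r).E.carrier →L[ℂ] (lv χ (r + 1)).E.carrier :=
  tJ χ (lv χ r).E

/-- The chains ending in level one. -/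
noncomputable def t1 (r : ℕ) :
    JJ χ →L[ℂ] (lv χ (r + 1)).E.carrier →L[ℂ] (lv χ (r + 2)).E.carrier :=
  tJ χ (lv χ (r + 1)).E

/-- The chains ending in level two. -/
noncomputable def t2 (r : ℕ) :
    JJ χ →L[ℂ] (lv χ (r + 2)).E.carrier →L[ℂ] (lv χ (r + 3)).E.carrier :=
  tJ χ (lv χ (r + 2)).E

/-- The zeroth chains. -/
noncomputable def ch0 (r : ℕ) (f : Fin r → JJ χ) (y : (lv χ 0).E.carrier) :
    (lv χ r).E.carrier := ch (W := fun r => (lv χ r).E.carrier) (t0 χ) r f y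

/-- The first chains. -/
noncomputable def ch1 (r : ℕ) (f : Fin r → JJ χ) (y : (lv χ 1).E.carrier) :
    (lv χ (r + 1)).E.carrier := ch (W := fun r => (lv χ (r + 1)).E.carrier) (t1 χ) r f y

/-- The second chains. -/
noncomputable def ch2 (r : ℕ) (f : Fin r → JJ χ) (y : (lv χ 2).E.carrier) :
    (lv χ (r + 2)).E.carrier := ch (W := fun r => (lv χ (r + 2)).E.carrier) (t2 χ) r f y

/-- Orthogonality. -/
def ort (j j' : JJ χ) : Prop := (j : A) * (j' : A) = 0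

lemma mulJ_ort {j j' : JJ χ} (h : ort χ j j') : mulJ χ (j : A) j' = 0 := Subtype.ext h

lemma b0_zero (w : (TJ χ (E0 χ)).carrier) : b0 χ w = 0 := by
  refine extJ χ (E0 χ) (f := b0 χ) (g := 0) (fun j y => ?_) w
  rw [b0_tJ, aM_E0, ε_coe, zero_smul]
  rfl

lemma ch1_b (r : ℕ) (f : Fin (r + 1) → JJ χ) (hf : ∀ i j, i ≠ j → ort χ (f i) (f j))
    (g : JJ χ) (hg : mulJ χ (f (Fin.last r) : A) g = f (Fin.last r)) (z : (E0 χ).carrier) :
    (lv χ (r + 1)).b (ch1 χ (r + 1) f (tJ χ (E0 χ) g z)) = (-1 : ℂ) ^ r • ch0 χ (r + 1) f z := by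
  refine ch_b (W := fun r => (lv χ r).E.carrier) (W' := fun r => (lv χ (r + 1)).E.carrier)
    (t0 χ) (t1 χ) (fun r => (lv χ r).b)
    (fun r j w => aM (TJ χ (lv χ r).E) (j : A) w) (ort χ) ?_ ?_ z (tJ χ (E0 χ) g z) ?_ r f hf ?_
  · intro r j w
    exact nb_tJ χ (lv χ r).E (lv χ r).b j w
  · intro r j j' w h
    refine (aM_tJ χ (lv χ (r + 1)).E (j : A) j' w).trans ?_
    rw [mulJ_ort χ h, map_zero]
    rfl
  · exact b0_zero χ _
  · refine (aM_tJ χ (E0 χ) _ g z).trans ?_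
    rw [hg]
    rfl

lemma ch2_b (r : ℕ) (f : Fin (r + 1) → JJ χ) (hf : ∀ i j, i ≠ j → ort χ (f i) (f j))
    (g : JJ χ) (hg : mulJ χ (f (Fin.last r) : A) g = f (Fin.last r))
    (z : (TJ χ (E0 χ)).carrier) (hz : aM (TJ χ (E0 χ)) (g : A) z = 0) :
    nb χ (lv χ (r + 1)).E (lv χ (r + 1)).b (ch2 χ (r + 1) f (tJ χ (TJ χ (E0 χ)) g z)) =
      (-1 : ℂ) ^ r • ch1 χ (r + 1) f z := by
  refine ch_b (W := fun r => (lv χ (r + 1)).E.carrier) (W' := fun r => (lv χ (r + 2)).E.carrier)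
    (t1 χ) (t2 χ) (fun r => (lv χ (r + 1)).b)
    (fun r j w => aM (TJ χ (lv χ (r + 1)).E) (j : A) w) (ort χ) ?_ ?_ z
    (tJ χ (TJ χ (E0 χ)) g z) ?_ r f hf ?_
  · intro r j w
    exact nb_tJ χ (lv χ (r + 1)).E (lv χ (r + 1)).b j w
  · intro r j j' w h
    refine (aM_tJ χ (lv χ (r + 2)).E (j : A) j' w).trans ?_
    rw [mulJ_ort χ h, map_zero]
    rfl
  · refine (nb_tJ χ (E0 χ) (b0 χ) g z).trans ?_
    rw [hz, b0_zero, map_zero, sub_zero]
    rfl
  · refine (aM_tJ χ (TJ χ (E0 χ)) _ g z).trans ?_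
    rw [hg]
    rfl

/-- The unit of level zero. -/
noncomputable def one0 : (E0 χ).carrier := (1 : ℂ)

lemma ev_ch0 : ∀ r (f : Fin r → JJ χ) (x : Fin r → ℕ),
    ev D χ r x (ch0 χ r f (one0 χ)) = ∏ i, pJ D χ (x i) (f i)
  | 0, f, x => by
    rw [Finset.univ_eq_empty, Finset.prod_empty]
    rfl
  | r + 1, f, x => by
    rw [Fin.prod_univ_succ]
    refine (evn_tJ D χ (lv χ r).E _ _ (f 0) (ch0 χ r (Fin.tail f) (one0 χ))).trans ?_
    exact congrArg (fun w => pJ D χ (x 0) (f 0) * w) (ev_ch0 r (Fin.tail f) (Fin.tail x))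

end Pool.Agent.W667.BN
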