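import Pool.Agent.W667.BN.A3

set_option autoImplicit false
set_option linter.deprecated false
set_option linter.unusedSectionVars false
set_option maxSynthPendingDepth 3

/-!
The algebra of bounded sequences and a character vanishing on the finitely supported elements.
-/

namespace Pool.Agent.W667.BN

open Pool.Agent.Helper832.CD Pool.Agent.Helper832.GD Pool.Agent.H817R4.DF

variable {A : Type} [NormedRing A] [NormedAlgebra ℂ A] [CompleteSpace A]
variable (D : Dat A) (χ : Chr A)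

/-- The element with given values. -/
noncomputable def elF (f : LL) : A := Classical.choose (D.ext f ‖f‖ (LL_apply_le f))

lemma pt_elF (f : LL) (n : ℕ) : D.pt n (elF D f) = f n :=
  Classical.choose_spec (D.ext f ‖f‖ (LL_apply_le f)) n

/-- The element with given values, as a linear map. -/
noncomputable def el : LL →ₗ[ℂ] A where
  toFun := elF D
  map_add' f g := D.inj fun n => by
    rw [map_add, pt_elF, pt_elF, pt_elF]
    rfl
  map_smul' c f := D.inj fun n => by
    rw [RingHom.id_apply, map_smul, pt_elF, pt_elF]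
    rfl

lemma pt_el (f : LL) (n : ℕ) : D.pt n (el D f) = f n := pt_elF D f n

/-- Characters which vanish at finitely supported elements. -/
def NP : Prop := ∀ n a, (∀ k, k ≠ n → D.pt k a = 0) → χ.ε a = 0

variable {D χ}

lemma fin_zero (hχ : NP D χ) (F : Finset ℕ) (w : A) (hw : ∀ n, n ∉ F → D.pt n w = 0) :
    χ.ε w = 0 := by
  have h1 : w = ∑ n ∈ F, D.pt n w • el D (ind {n}) := by
    refine D.inj fun k => ?_
    rw [map_sum]
    have e1 : ∀ n ∈ F, D.pt k (D.pt n w • el D (ind {n})) = if n = k then D.pt k w else 0 := by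
      intro n _
      rw [map_smul, pt_el, smul_eq_mul]
      split_ifs with h
      · rw [h, ind_of_mem (Set.mem_singleton k), mul_one]
      · rw [ind_of_notMem fun h' => h (Set.mem_singleton_iff.1 h').symm, mul_zero]
    rw [Finset.sum_congr rfl e1, Finset.sum_ite_eq']
    split_ifs with h
    · rfl
    · exact hw k h
  rw [h1, map_sum]
  refine Finset.sum_eq_zero fun n _ => ?_
  rw [map_smul, hχ n (el D (ind {n})) fun k hk => ?_, smul_zero]
  rw [pt_el]
  exact ind_of_notMem fun h => hk (Set.mem_singleton_iff.1 h)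

lemma inf_small (hχ : NP D χ) (js : ℕ → JJ χ) (k : ℕ) (δ : ℝ) (hδ : 0 < δ) :
    {X | ∀ i ≤ k, ‖pJ D χ X (js i)‖ < δ}.Infinite := by
  intro hfin
  obtain ⟨F, hF⟩ : ∃ F : Finset ℕ, ∀ X, X ∈ F ↔ ∀ i ≤ k, ‖pJ D χ X (js i)‖ < δ :=
    ⟨hfin.toFinset, fun X => by rw [Set.Finite.mem_toFinset]; rfl⟩
  choose a ha using fun i => D.ext (fun X => (starRingEnd ℂ) (pJ D χ X (js i))) ‖js i‖
    (fun X => by
      rw [RCLike.norm_conj]
      exact pJ_le D χ X (js i))
  let v : A := ∑ i ∈ Finset.range (k + 1), a i * (js i : A)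
  have hv0 : χ.ε v = 0 := by
    show χ.ε (∑ i ∈ Finset.range (k + 1), a i * (js i : A)) = 0
    rw [map_sum]
    refine Finset.sum_eq_zero fun i _ => ?_
    rw [χ.mul, ε_coe, mul_zero]
  have hv1 : ∀ X, D.pt X v = ((∑ i ∈ Finset.range (k + 1), ‖pJ D χ X (js i)‖ ^ 2 : ℝ) : ℂ) := by
    intro X
    show D.pt X (∑ i ∈ Finset.range (k + 1), a i * (js i : A)) = _
    rw [map_sum, Complex.ofReal_sum]
    refine Finset.sum_congr rfl fun i _ => ?_
    rw [D.mul, ha, Complex.ofReal_pow, ← Complex.conj_mul']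
    rfl
  have hv2 : ∀ X, X ∉ F → δ ^ 2 ≤ ‖D.pt X v‖ := by
    intro X hX
    rw [hF] at hX
    push Not at hX
    obtain ⟨i, hi, hi2⟩ := hX
    rw [hv1, Complex.norm_real, Real.norm_eq_abs]
    refine le_trans ?_ (le_abs_self _)
    refine le_trans ?_ (Finset.single_le_sum (f := fun i => ‖pJ D χ X (js i)‖ ^ 2)
      (fun i _ => sq_nonneg _) (Finset.mem_range.2 (Nat.lt_succ_of_le hi)))
    exact pow_le_pow_left₀ hδ.le hi2 2
  obtain ⟨u, hu⟩ := D.ext (fun X => if X ∈ F then 0 else (D.pt X v)⁻¹) (δ ^ 2)⁻¹ (fun X => by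
    split_ifs with h
    · rw [norm_zero]; positivity
    · rw [norm_inv]
      exact inv_anti₀ (by positivity) (hv2 X h))
  have h1 : χ.ε (1 - u * v) = 0 := by
    refine fin_zero hχ F _ fun n hn => ?_
    rw [map_sub, D.one, D.mul, hu, if_neg hn, inv_mul_cancel₀, sub_self]
    intro h0
    have := hv2 n hn
    rw [h0, norm_zero] at this
    exact absurd this (not_le.2 (by positivity))
  rw [map_sub, χ.one, χ.mul, hv0, mul_zero, sub_zero] at h1
  exact one_ne_zero h1

/-- The choice of the set. -/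
lemma exists_M0 (hχ : NP D χ) (js : ℕ → JJ χ) : ∃ M0 : Set ℕ, M0.Infinite ∧
    (∃ g0 : JJ χ, (∀ n ∈ M0, pJ D χ n g0 = 1) ∧ ∀ n, n ∉ M0 → pJ D χ n g0 = 0) ∧
      ∀ i, ∀ ε : ℝ, 0 < ε → ∃ n0, ∀ X ∈ M0, n0 ≤ X → ‖pJ D χ X (js i)‖ ≤ ε := by
  obtain ⟨φ, hφ, hφ2⟩ := Filter.extraction_forall_of_frequently
    (P := fun n X => ∀ i ≤ n, ‖pJ D χ X (js i)‖ < 1 / ((n : ℝ) + 1)) (fun n =>
      Nat.frequently_atTop_iff_infinite.2 (inf_small hχ js n _ (by positivity)))
  obtain ⟨Q, hQ1, hQ2, hQ3⟩ := exists_parts (Set.range φ)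
    (Set.infinite_range_of_injective hφ.injective)
  have hprod : el D (ind (Q 0)) * el D (ind (Q 1)) = 0 := by
    refine D.inj fun n => ?_
    rw [D.mul, pt_el, pt_el, map_zero]
    by_cases hn : n ∈ Q 0
    · rw [ind_of_notMem (Set.disjoint_left.1 (hQ3 0 1 zero_ne_one) hn), mul_zero]
    · rw [ind_of_notMem hn, zero_mul]
  have hor : χ.ε (el D (ind (Q 0))) = 0 ∨ χ.ε (el D (ind (Q 1))) = 0 := by
    rw [← mul_eq_zero, ← χ.mul, hprod, map_zero]
  obtain ⟨q, hq⟩ : ∃ q, χ.ε (el D (ind (Q q))) = 0 := by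
    rcases hor with h | h
    · exact ⟨0, h⟩
    · exact ⟨1, h⟩
  refine ⟨Q q, hQ1 q, ⟨⟨el D (ind (Q q)), (JJ_mem χ).2 hq⟩, fun n hn => ?_, fun n hn => ?_⟩,
    fun i ε hε => ?_⟩
  · show D.pt n (el D (ind (Q q))) = 1
    rw [pt_el, ind_of_mem hn]
  · show D.pt n (el D (ind (Q q))) = 0
    rw [pt_el, ind_of_notMem hn]
  · obtain ⟨m, hm⟩ := exists_nat_one_div_lt hε
    refine ⟨φ (max m i), fun X hX hX2 => ?_⟩
    obtain ⟨k, rfl⟩ := hQ2 q hX
    have hk : max m i ≤ k := hφ.le_iff_le.1 hX2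
    have h1 := hφ2 k i ((le_max_right m i).trans hk)
    refine h1.le.trans (le_trans ?_ hm.le)
    refine one_div_le_one_div_of_le (by positivity) ?_
    have : (m : ℝ) ≤ k := by exact_mod_cast (le_max_left m i).trans hk
    linarith

/-- The main theorem in abstract form. -/
theorem no_T (hχ : NP D χ) (r : ℕ)
    (T : (TJ χ (lv χ (r + 1)).E).carrier →L[ℂ] (TJ χ (lv χ (r + 1)).E).carrier)
    (h1 : ∀ e, (lv χ (r + 1)).b (T e) = (lv χ (r + 1)).b e)
    (h2 : ∀ y, T (nb χ (lv χ (r + 1)).E (lv χ (r + 1)).b y) = 0) : False := by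
  have hχ1 : ∀ n, χ.ε (el D (ind {n})) = 0 := fun n => hχ n _ fun k hk => by
    rw [pt_el]
    exact ind_of_notMem fun h => hk (Set.mem_singleton_iff.1 h)
  let e1 : ℕ → JJ χ := fun n => ⟨el D (ind {n}), (JJ_mem χ).2 (hχ1 n)⟩
  have he1 : ∀ n k, pJ D χ k (e1 n) = ind {n} k := fun n k => pt_el D _ k
  -- the countably many slices
  let Idx := (Fin (r + 1) → ℕ) × Fin (r + 2) × (Fin (r + 2) → ℕ)
  choose s hs using ev_slice D χ (r + 2)
  obtain ⟨enum, henum⟩ := exists_surjective_nat Idx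
  obtain ⟨M0, hM0, ⟨g0, hg0, hg0'⟩, hM0s⟩ := exists_M0 hχ (D := D) (fun m =>
    s (enum m).2.1 (enum m).2.2 (T (ch1 χ (r + 1) (fun i => e1 ((enum m).1 i))
      (tJ χ (E0 χ) (e1 ((enum m).1 (Fin.last r))) (one0 χ)))))
  -- the restriction operator
  let R : LL →ₗ[ℂ] JJ χ := ((mulJ χ).flip g0 : A →ₗ[ℂ] JJ χ) ∘ₗ el D
  have hR : ∀ f n, pJ D χ n (R f) = f n * pJ D χ n g0 := fun f n => by
    show pJ D χ n (mulJ χ (el D f) g0) = _
    rw [pJ_mulJ, pt_el]
  have hR1 : ∀ f n, n ∈ M0 → pJ D χ n (R f) = f n := fun f n hn => by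
    rw [hR, hg0 n hn, mul_one]
  have hR0 : ∀ f n, n ∉ M0 → pJ D χ n (R f) = 0 := fun f n hn => by
    rw [hR, hg0' n hn, mul_zero]
  have hRn : ∀ f, ‖R f‖ ≤ ‖f‖ := fun f => by
    refine pJ_nrm D χ _ _ (norm_nonneg f) fun n => ?_
    by_cases hn : n ∈ M0
    · rw [hR1 f n hn]; exact LL_apply_le f n
    · rw [hR0 f n hn, norm_zero]; exact norm_nonneg f
  let y0 : (lv χ 1).E.carrier := tJ χ (E0 χ) g0 (one0 χ)
  let T' : (lv χ (r + 2)).E.carrier →L[ℂ] (lv χ (r + 2)).E.carrier := T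
  let B : (Fin (r + 2) → ℕ) → MultilinearMap ℂ (fun _ : Fin (r + 1) => LL) ℂ := fun x =>
    (((ev D χ (r + 2) x : (lv χ (r + 2)).E.carrier →ₗ[ℂ] ℂ)) ∘ₗ
      (T' : (lv χ (r + 2)).E.carrier →ₗ[ℂ] (lv χ (r + 2)).E.carrier)).compMultilinearMap
      ((chM (W := fun r => (lv χ (r + 1)).E.carrier) (t1 χ) y0 (r + 1)).compLinearMap
        (fun _ => R))
  have hB : ∀ x f, B x f = ev D χ (r + 2) x (T (ch1 χ (r + 1) (fun i => R (f i)) y0)) := by
    intro x f
    show ev D χ (r + 2) x (T (chM (W := fun r => (lv χ (r + 1)).E.carrier) (t1 χ) y0 (r + 1)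
      fun i => R (f i))) = _
    rw [chM_apply]
    rfl
  obtain ⟨C, hC0, hC⟩ := ch_norm (W := fun r => (lv χ (r + 1)).E.carrier) (t1 χ) y0 (r + 1)
  refine comb B (‖T‖ * C) ?_ M0 hM0 ?_ ?_ ?_
  · intro x f hf
    rw [hB]
    have a1 : ‖ch1 χ (r + 1) (fun i => R (f i)) y0‖ ≤ C :=
      hC (fun i => R (f i)) fun i => (hRn _).trans (hf i)
    have a2 : ‖T (ch1 χ (r + 1) (fun i => R (f i)) y0)‖ ≤ ‖T‖ * C :=
      (T.le_opNorm _).trans (mul_le_mul_of_nonneg_left a1 (norm_nonneg _))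
    have a3 := (ev D χ (r + 2) x).le_opNorm (T (ch1 χ (r + 1) (fun i => R (f i)) y0))
    refine a3.trans ?_
    calc _ ≤ 1 * (‖T‖ * C) := mul_le_mul (ev_norm D χ (r + 2) x) a2 (norm_nonneg _) zero_le_one
      _ = ‖T‖ * C := one_mul _
  · intro f ε hε
    obtain ⟨N, c, hc⟩ := ev_col D χ (r + 2) (T (ch1 χ (r + 1) (fun i => R (f i)) y0)) ε hε
    refine ⟨N, c, fun x x' h => ?_⟩
    rw [hB, hB]
    exact hc x x' h
  · intro z l x hz hzM hxM ε hε
    obtain ⟨m, hm⟩ := henum (z, l, x)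
    obtain ⟨n0, hn0⟩ := hM0s m ε hε
    refine ⟨n0, fun X hX hX2 => ?_⟩
    have h3 := hn0 X hX hX2
    rw [hm] at h3
    have h4 : (fun i => R (ind {z i})) = fun i => e1 (z i) := by
      funext i
      refine pJ_inj D χ fun n => ?_
      rw [he1]
      by_cases hn : n ∈ M0
      · rw [hR1 _ n hn]
      · rw [hR0 _ n hn, ind_of_notMem]
        intro h
        exact hn (by rw [Set.mem_singleton_iff.1 h]; exact hzM i)
    have h5 : T (ch1 χ (r + 1) (fun i => R (ind {z i})) y0) =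
        T (ch1 χ (r + 1) (fun i => e1 (z i)) (tJ χ (E0 χ) (e1 (z (Fin.last r))) (one0 χ))) := by
      rw [h4]
      let g : JJ χ := g0 - e1 (z (Fin.last r))
      have h6 := ch2_b χ r (fun i => e1 (z i)) (fun i j hij => by
          refine D.inj fun n => ?_
          have a1 := he1 (z i) n
          have a2 := he1 (z j) n
          rw [D.mul, map_zero]
          rw [pJ_apply] at a1 a2
          rw [a1, a2]
          by_cases hn : n = z i
          · rw [ind_of_notMem (P := {z j}), mul_zero]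
            intro h
            exact hij (hz (hn.symm.trans (Set.mem_singleton_iff.1 h)))
          · rw [ind_of_notMem (P := {z i}) (fun h => hn (Set.mem_singleton_iff.1 h)), zero_mul])
        (e1 (z (Fin.last r))) (by
          refine pJ_inj D χ fun n => ?_
          rw [pJ_mulJ]
          have a1 := he1 (z (Fin.last r)) n
          rw [a1]
          rw [pJ_apply] at a1
          rw [a1, ind_apply]
          split_ifs
          · rw [one_mul]
          · rw [zero_mul])
        (tJ χ (E0 χ) g (one0 χ)) (by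
          rw [aM_tJ]
          have a0 : mulJ χ (e1 (z (Fin.last r)) : A) g = 0 := by
            refine pJ_inj D χ fun n => ?_
            rw [pJ_mulJ, map_zero]
            have a1 := he1 (z (Fin.last r)) n
            have a2 : pJ D χ n g = pJ D χ n g0 - pJ D χ n (e1 (z (Fin.last r))) := map_sub _ _ _
            rw [a2, a1]
            rw [pJ_apply] at a1
            rw [a1]
            by_cases hn : n = z (Fin.last r)
            · rw [hn, hg0 _ (hzM _), ind_of_mem (Set.mem_singleton _), sub_self, mul_zero]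
            · rw [ind_of_notMem (fun h => hn (Set.mem_singleton_iff.1 h)), zero_mul]
          rw [a0, map_zero]
          rfl)
      have h7 := h2 (ch2 χ (r + 1) (fun i => e1 (z i)) (tJ χ (TJ χ (E0 χ))
        (e1 (z (Fin.last r))) (tJ χ (E0 χ) g (one0 χ))))
      rw [h6] at h7
      have h8 : T (ch1 χ (r + 1) (fun i => e1 (z i)) (tJ χ (E0 χ) g (one0 χ))) = 0 := by
        have a1 : T ((-1 : ℂ) ^ r • ch1 χ (r + 1) (fun i => e1 (z i)) (tJ χ (E0 χ) g (one0 χ))) =
            (-1 : ℂ) ^ r • T (ch1 χ (r + 1) (fun i => e1 (z i)) (tJ χ (E0 χ) g (one0 χ))) :=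
          map_smul T _ _
        rw [a1] at h7
        rcases smul_eq_zero.1 h7 with h | h
        · exact absurd h (pow_ne_zero _ (neg_ne_zero.2 one_ne_zero))
        · exact h
      have h9 : ch1 χ (r + 1) (fun i => e1 (z i)) (tJ χ (E0 χ) g (one0 χ)) =
          ch1 χ (r + 1) (fun i => e1 (z i)) y0 -
          ch1 χ (r + 1) (fun i => e1 (z i)) (tJ χ (E0 χ) (e1 (z (Fin.last r))) (one0 χ)) := by
        have a1 : tJ χ (E0 χ) g (one0 χ) =
            tJ χ (E0 χ) g0 (one0 χ) - tJ χ (E0 χ) (e1 (z (Fin.last r))) (one0 χ) := by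
          show tJ χ (E0 χ) (g0 - e1 (z (Fin.last r))) (one0 χ) = _
          rw [map_sub, ContinuousLinearMap.sub_apply]
        rw [a1]
        exact ch_sub (W := fun r => (lv χ (r + 1)).E.carrier) (t1 χ) _ _ (r + 1) _
      rw [h9] at h8
      have h10 : T (ch1 χ (r + 1) (fun i => e1 (z i)) y0 -
          ch1 χ (r + 1) (fun i => e1 (z i)) (tJ χ (E0 χ) (e1 (z (Fin.last r))) (one0 χ))) =
          T (ch1 χ (r + 1) (fun i => e1 (z i)) y0) -
          T (ch1 χ (r + 1) (fun i => e1 (z i)) (tJ χ (E0 χ) (e1 (z (Fin.last r))) (one0 χ))) :=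
        map_sub T _ _
      rw [h10] at h8
      exact sub_eq_zero.1 h8
    rw [hB, h5, hs l x]
    exact h3
  · intro f hf hfd x
    have h3 := ch1_b χ r (fun i => R (f i)) (fun i j hij => by
        refine D.inj fun n => ?_
        rw [D.mul, map_zero]
        by_cases hn : n ∈ M0
        · have a1 := hR1 (f i) n hn
          have a2 := hR1 (f j) n hn
          rw [pJ_apply] at a1 a2
          rw [a1, a2]
          rcases hfd i j hij n with h | h
          · rw [h, zero_mul]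
          · rw [h, mul_zero]
        · have a1 := hR0 (f i) n hn
          rw [pJ_apply] at a1
          rw [a1, zero_mul]) g0 (by
        refine pJ_inj D χ fun n => ?_
        rw [pJ_mulJ]
        by_cases hn : n ∈ M0
        · rw [hg0 n hn, mul_one]
          rfl
        · rw [hg0' n hn, mul_zero, hR0 _ n hn]) (one0 χ)
    have h4 : ev D χ (r + 1) x ((lv χ (r + 1)).b (T (ch1 χ (r + 1) (fun i => R (f i)) y0))) =
        (-1 : ℂ) ^ r * ∏ i, f i (x i) := by
      rw [h1]
      have a1 : ev D χ (r + 1) x ((lv χ (r + 1)).b (ch1 χ (r + 1) (fun i => R (f i)) y0)) =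
          ev D χ (r + 1) x ((-1 : ℂ) ^ r • ch0 χ (r + 1) (fun i => R (f i)) (one0 χ)) :=
        congrArg _ h3
      rw [a1, map_smul, smul_eq_mul, ev_ch0]
      congr 1
      refine Finset.prod_congr rfl fun i _ => ?_
      by_cases hn : x i ∈ M0
      · exact hR1 _ _ hn
      · rw [hR0 _ _ hn, hf i _ hn]
    have h5 := ev_b D χ (r + 1) x (T (ch1 χ (r + 1) (fun i => R (f i)) y0))
    rw [h4] at h5
    have h6 : ‖∏ i, f i (x i)‖ = ‖(-1 : ℂ) ^ r * ∏ i, f i (x i)‖ := by
      rw [norm_mul, norm_pow, norm_neg, norm_one, one_pow, one_mul]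
    rw [h6, h5]
    refine (norm_sum_le _ _).trans (Finset.sum_le_sum fun i _ => ?_)
    rw [norm_mul, norm_pow, norm_neg, norm_one, one_pow, one_mul, hB]

end Pool.Agent.W667.BN
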