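import Mathlib

set_option autoImplicit false
set_option linter.deprecated false

/-!
Combinatorial selection lemmas.
-/

namespace Pool.Agent.W667.BN

open Set

/-- An infinite set contains infinitely many disjoint infinite sets. -/
lemma exists_parts (N : Set ℕ) (hN : N.Infinite) : ∃ P : ℕ → Set ℕ,
    (∀ j, (P j).Infinite) ∧ (∀ j, P j ⊆ N) ∧ ∀ i j, i ≠ j → Disjoint (P i) (P j) := by
  have hinj : Function.Injective (Nat.nth (· ∈ N)) := Nat.nth_injective hN
  refine ⟨fun j => range fun k => Nat.nth (· ∈ N) (Nat.pair j k), fun j => ?_, fun j => ?_,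
    fun i j hij => ?_⟩
  · refine infinite_range_of_injective fun k k' h => ?_
    exact (Nat.pair_eq_pair.1 (hinj h)).2
  · rintro _ ⟨k, rfl⟩
    exact Nat.nth_mem_of_infinite hN _
  · rw [Set.disjoint_left]
    rintro _ ⟨k, rfl⟩ ⟨k', h⟩
    exact hij (Nat.pair_eq_pair.1 (hinj h)).1.symm

/-- The selection lemma of Rosenthal. -/
lemma ros (Bd : ℕ → Set ℕ → ℝ → Prop)
    (h1 : ∀ X P Q t ε, Disjoint P Q → Bd X (P ∪ Q) t → ¬ Bd X Q ε → Bd X P (t - ε))
    (h2 : ∀ X P t t', t ≤ t' → Bd X P t → Bd X P t')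
    (C : ℝ) (h0 : ∀ X P, Bd X P C) (ε : ℝ) (hε : 0 < ε) (N : Set ℕ) (hN : N.Infinite) :
    ∃ M ⊆ N, M.Infinite ∧ ∀ X ∈ M, Bd X (M \ {X}) ε := by
  have key : ∀ K : ℕ, ∀ N : Set ℕ, N.Infinite → (∀ X ∈ N, ∀ P ⊆ N, Bd X P (K * ε)) →
      ∃ M ⊆ N, M.Infinite ∧ ∀ X ∈ M, Bd X (M \ {X}) ε := by
    intro K
    induction K with
    | zero =>
      intro N hN h
      refine ⟨N, Subset.rfl, hN, fun X hX => ?_⟩
      refine h2 X _ _ _ ?_ (h X hX _ diff_subset)
      rw [Nat.cast_zero, zero_mul]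
      exact hε.le
    | succ K ih =>
      intro N hN h
      by_contra hno
      obtain ⟨P, hP1, hP2, hP3⟩ := exists_parts N hN
      have hX : ∀ j, ∃ X ∈ P j, ¬ Bd X (P j \ {X}) ε := by
        intro j
        by_contra hj
        refine hno ⟨P j, hP2 j, hP1 j, fun X hX => ?_⟩
        by_contra hX2
        exact hj ⟨X, hX, hX2⟩
      choose X hXP hXB using hX
      have hXinj : Function.Injective X := by
        intro i j hij
        by_contra hne
        have := Set.disjoint_left.1 (hP3 i j hne) (hXP i)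
        rw [hij] at this
        exact this (hXP j)
      have hsub : range X ⊆ N := by
        rintro _ ⟨j, rfl⟩
        exact hP2 j (hXP j)
      obtain ⟨M, hM1, hM2, hM3⟩ := ih (range X) (infinite_range_of_injective hXinj) (by
        rintro _ ⟨j, rfl⟩ Q hQ
        have hd : Disjoint Q (P j \ {X j}) := by
          rw [Set.disjoint_left]
          intro n hn hn2
          obtain ⟨i, rfl⟩ := hQ hn
          by_cases hij : i = j
          · exact hn2.2 (by rw [hij]; exact mem_singleton _)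
          · exact Set.disjoint_left.1 (hP3 i j hij) (hXP i) hn2.1
        have h3 := h1 (X j) Q (P j \ {X j}) _ ε hd
          (h (X j) (hP2 j (hXP j)) _ (union_subset (hQ.trans hsub)
            (diff_subset.trans (hP2 j)))) (hXB j)
        refine h2 _ _ _ _ (le_of_eq ?_) h3
        push_cast
        ring)
      exact hno ⟨M, hM1.trans hsub, hM2, hM3⟩
  obtain ⟨K, hK⟩ := exists_nat_ge (C / ε)
  refine key K N hN fun X _ P _ => h2 X P C _ ?_ (h0 X P)
  rwa [div_le_iff₀ hε] at hK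

/-- Finitely many hereditary properties can be attained simultaneously. -/
lemma att_all {ι : Type} [Finite ι] (Q : ι → Set ℕ → Prop)
    (hher : ∀ i M M', M' ⊆ M → Q i M → Q i M')
    (hatt : ∀ i N, N.Infinite → ∃ M ⊆ N, M.Infinite ∧ Q i M) (N : Set ℕ) (hN : N.Infinite) :
    ∃ M ⊆ N, M.Infinite ∧ ∀ i, Q i M := by
  classical
  have := Fintype.ofFinite ι
  have key : ∀ s : Finset ι, ∃ M ⊆ N, M.Infinite ∧ ∀ i ∈ s, Q i M := by
    intro s
    induction s using Finset.induction_on with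
    | empty => exact ⟨N, Subset.rfl, hN, fun i hi => absurd hi (Finset.notMem_empty i)⟩
    | insert i s _ ih =>
      obtain ⟨M, hM1, hM2, hM3⟩ := ih
      obtain ⟨M', hM1', hM2', hM3'⟩ := hatt i M hM2
      refine ⟨M', hM1'.trans hM1, hM2', fun j hj => ?_⟩
      rcases Finset.mem_insert.1 hj with rfl | hj
      · exact hM3'
      · exact hher j M M' hM1' (hM3 j hj)
  obtain ⟨M, h1, h2, h3⟩ := key Finset.univ
  exact ⟨M, h1, h2, fun i => h3 i (Finset.mem_univ i)⟩

/-- Diagonalisation. -/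
lemma diag (G : Finset ℕ → Set ℕ → Prop)
    (hher : ∀ F M M', M' ⊆ M → G F M → G F M')
    (hatt : ∀ F N, N.Infinite → ∃ M ⊆ N, M.Infinite ∧ G F M) (N : Set ℕ) (hN : N.Infinite) :
    ∃ m : ℕ → ℕ, StrictMono m ∧ (∀ i, m i ∈ N) ∧
      ∀ j, G (Finset.image m (Finset.range j)) {n | ∃ i, j ≤ i ∧ m i = n} := by
  classical
  choose! nx hnx1 hnx2 hnx3 using hatt
  -- the states
  let St := Finset ℕ × {M : Set ℕ // M.Infinite}
  let U : St → {M : Set ℕ // M.Infinite} := fun s => ⟨nx s.1 s.2.1, hnx2 s.1 s.2.1 s.2.2⟩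
  have hne : ∀ M : {M : Set ℕ // M.Infinite}, ∃ n, n ∈ M.1 := fun M => M.2.nonempty
  choose mn hmn using hne
  let step : St → St := fun s =>
    (insert (mn (U s)) s.1, ⟨(U s).1 \ {n | n ≤ mn (U s)}, (U s).2.diff (finite_le_nat _)⟩)
  let st : ℕ → St := fun n => Nat.rec (∅, ⟨N, hN⟩) (fun _ s => step s) n
  have hst : ∀ n, st (n + 1) = step (st n) := fun n => rfl
  let m : ℕ → ℕ := fun n => mn (U (st n))
  have hmU : ∀ n, m n ∈ (U (st n)).1 := fun n => hmn _
  have hUsub : ∀ n, (U (st n)).1 ⊆ (st n).2.1 := fun n => hnx1 _ _ (st n).2.2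
  have hsub1 : ∀ n, (st (n + 1)).2.1 ⊆ (U (st n)).1 \ {k | k ≤ m n} := fun n => by
    rw [hst]
  have hsub2 : ∀ n, (U (st (n + 1))).1 ⊆ (U (st n)).1 := fun n =>
    (hUsub (n + 1)).trans ((hsub1 n).trans diff_subset)
  have hsub3 : ∀ n k, n ≤ k → (U (st k)).1 ⊆ (U (st n)).1 := by
    intro n k h
    induction k, h using Nat.le_induction with
    | base => exact Subset.rfl
    | succ k _ ih => exact (hsub2 k).trans ih
  have hF : ∀ n, (st n).1 = Finset.image m (Finset.range n) := by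
    intro n
    induction n with
    | zero => rfl
    | succ n ih =>
      rw [Finset.range_add_one, Finset.image_insert, ← ih, hst]
  refine ⟨m, strictMono_nat_of_lt_succ fun n => ?_, fun i => ?_, fun j => ?_⟩
  · have h1 := hsub1 n (hUsub (n + 1) (hmU (n + 1)))
    exact not_le.1 h1.2
  · have h1 := hUsub 0 (hsub3 0 i (Nat.zero_le i) (hmU i))
    exact h1
  · rw [← hF]
    refine hher _ (U (st j)).1 _ ?_ (hnx3 _ _ (st j).2.2)
    rintro _ ⟨i, hi, rfl⟩
    exact hsub3 j i hi (hmU i)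

/-- Pigeonhole. -/
lemma pigeon (N : Set ℕ) (hN : N.Infinite) (K : ℕ) (c : ℕ → Fin K) :
    ∃ M ⊆ N, M.Infinite ∧ ∃ t, ∀ n ∈ M, c n = t := by
  by_contra hno
  refine hN ?_
  have h1 : ∀ t, (N ∩ c ⁻¹' {t}).Finite := by
    intro t
    by_contra h
    exact hno ⟨_, inter_subset_left, h, t, fun n hn => hn.2⟩
  have h2 : N = ⋃ t, N ∩ c ⁻¹' {t} := by
    ext n
    rw [mem_iUnion]
    exact ⟨fun h => ⟨c n, h, rfl⟩, fun ⟨_, h⟩ => h.1⟩
  rw [h2]
  exact finite_iUnion h1

end Pool.Agent.W667.BN
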