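import Pool.Agent.W667.BN.C1

set_option autoImplicit false
set_option linter.deprecated false
set_option linter.unusedSectionVars false

/-!
Multilinear forms on bounded sequences.
-/

namespace Pool.Agent.W667.BN

open Set

/-- Bounded sequences. -/
abbrev LL : Type := BoundedContinuousFunction ℕ ℂ

open Classical in
/-- Restriction of a bounded sequence. -/
noncomputable def cut (P : Set ℕ) (f : LL) : LL :=
  BoundedContinuousFunction.ofNormedAddCommGroupDiscrete (fun n => if n ∈ P then f n else 0) ‖f‖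
    (fun n => by
      split_ifs
      · exact f.norm_coe_le_norm n
      · rw [norm_zero]; exact norm_nonneg f)

open Classical in
/-- Indicators. -/
noncomputable def ind (P : Set ℕ) : LL :=
  BoundedContinuousFunction.ofNormedAddCommGroupDiscrete (fun n => if n ∈ P then (1 : ℂ) else 0) 1
    (fun n => by
      split_ifs
      · rw [norm_one]
      · rw [norm_zero]; exact zero_le_one)

open Classical in
lemma cut_apply (P : Set ℕ) (f : LL) (n : ℕ) : cut P f n = if n ∈ P then f n else 0 := rfl

open Classical in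
lemma ind_apply (P : Set ℕ) (n : ℕ) : ind P n = if n ∈ P then (1 : ℂ) else 0 := rfl

lemma ind_of_mem {P : Set ℕ} {n : ℕ} (h : n ∈ P) : ind P n = 1 := by
  rw [ind_apply, if_pos h]

lemma ind_of_notMem {P : Set ℕ} {n : ℕ} (h : n ∉ P) : ind P n = 0 := by
  rw [ind_apply, if_neg h]

lemma cut_of_mem {P : Set ℕ} {f : LL} {n : ℕ} (h : n ∈ P) : cut P f n = f n := by
  rw [cut_apply, if_pos h]

lemma cut_of_notMem {P : Set ℕ} {f : LL} {n : ℕ} (h : n ∉ P) : cut P f n = 0 := by
  rw [cut_apply, if_neg h]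

lemma LL_norm_le (f : LL) {C : ℝ} (hC : 0 ≤ C) : ‖f‖ ≤ C ↔ ∀ n, ‖f n‖ ≤ C :=
  BoundedContinuousFunction.norm_le hC

lemma LL_apply_le (f : LL) (n : ℕ) : ‖f n‖ ≤ ‖f‖ := f.norm_coe_le_norm n

lemma ind_norm (P : Set ℕ) : ‖ind P‖ ≤ 1 := by
  rw [LL_norm_le _ zero_le_one]
  intro n
  rw [ind_apply]
  split_ifs
  · rw [norm_one]
  · rw [norm_zero]; exact zero_le_one

lemma cut_norm (P : Set ℕ) (f : LL) : ‖cut P f‖ ≤ ‖f‖ := by
  rw [LL_norm_le _ (norm_nonneg f)]
  intro n
  rw [cut_apply]
  split_ifs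
  · exact LL_apply_le f n
  · rw [norm_zero]; exact norm_nonneg f

lemma cut_add_compl (P : Set ℕ) (f : LL) : cut P f + cut Pᶜ f = f := by
  ext n
  show cut P f n + cut Pᶜ f n = f n
  by_cases h : n ∈ P
  · have h1 : n ∉ Pᶜ := fun h' => h' h
    rw [cut_of_mem h, cut_of_notMem h1, add_zero]
  · have h1 : n ∈ Pᶜ := h
    rw [cut_of_notMem h, cut_of_mem h1, zero_add]

/-- Finitely supported sequences. -/
lemma finsupp_sum (f : LL) (F : Finset ℕ) (hF : ∀ n ∉ F, f n = 0) :
    f = ∑ z ∈ F, f z • ind {z} := by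
  ext n
  have h1 : (∑ z ∈ F, f z • ind {z}) n = ∑ z ∈ F, (f z • ind {z}) n := by
    rw [BoundedContinuousFunction.coe_sum, Finset.sum_apply]
  rw [h1]
  by_cases hn : n ∈ F
  · rw [Finset.sum_eq_single n]
    · show f n = f n * ind {n} n
      rw [ind_of_mem (mem_singleton n), mul_one]
    · intro z _ hz
      show f z * ind {z} n = 0
      rw [ind_of_notMem (fun h => hz (mem_singleton_iff.1 h).symm), mul_zero]
    · intro h
      exact absurd hn h
  · rw [hF n hn]
    symm
    refine Finset.sum_eq_zero fun z hz => ?_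
    show f z * ind {z} n = 0
    rw [ind_of_notMem (fun h => hn (by rw [mem_singleton_iff.1 h]; exact hz)), mul_zero]

variable {ι : Type} [Fintype ι] [DecidableEq ι]

/-- A multilinear form along a line is a polynomial. -/
lemma exists_poly (b : MultilinearMap ℂ (fun _ : ι => LL) ℂ) (f g : ι → LL) (I : Finset ι) :
    ∀ c : ι → LL, ∃ q : Polynomial ℂ, q.natDegree ≤ I.card ∧
      (∀ w : ℂ, q.eval w = b (I.piecewise (fun i => f i + w • g i) c)) ∧
      q.coeff I.card = b (I.piecewise g c) := by
  induction I using Finset.induction_on with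
  | empty =>
    intro c
    refine ⟨Polynomial.C (b c), ?_, fun w => ?_, ?_⟩
    · rw [Polynomial.natDegree_C]; exact Nat.zero_le _
    · rw [Polynomial.eval_C, Finset.piecewise_empty]
    · rw [Finset.card_empty, Polynomial.coeff_C_zero, Finset.piecewise_empty]
  | insert i I hi ih =>
    intro c
    obtain ⟨q1, hd1, he1, hc1⟩ := ih (Function.update c i (f i))
    obtain ⟨q2, hd2, he2, hc2⟩ := ih (Function.update c i (g i))
    have hcard : (insert i I).card = I.card + 1 := Finset.card_insert_of_notMem hi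
    refine ⟨q1 + Polynomial.X * q2, ?_, fun w => ?_, ?_⟩
    · rw [hcard]
      refine (Polynomial.natDegree_add_le _ _).trans (max_le (hd1.trans (Nat.le_succ _)) ?_)
      refine (Polynomial.natDegree_mul_le).trans ?_
      have := Polynomial.natDegree_X_le (R := ℂ)
      omega
    · rw [Polynomial.eval_add, Polynomial.eval_mul, Polynomial.eval_X, he1, he2,
        Finset.piecewise_insert, MultilinearMap.map_update_add, MultilinearMap.map_update_smul,
        smul_eq_mul, Finset.update_piecewise_of_notMem _ _ _ hi,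
        Finset.update_piecewise_of_notMem _ _ _ hi]
    · rw [hcard, Polynomial.coeff_add, Polynomial.coeff_X_mul, hc2,
        Polynomial.coeff_eq_zero_of_natDegree_lt (Nat.lt_succ_of_le hd1), zero_add,
        Finset.piecewise_insert, Finset.update_piecewise_of_notMem _ _ _ hi]

/-- Averaging over roots of unity. -/
lemma avg (q : Polynomial ℂ) (n : ℕ) (hn : 0 < n) (hd : q.natDegree ≤ n) (t : ℝ)
    (h : ∀ w : ℂ, ‖w‖ = 1 → ‖q.eval w‖ ≤ t) : ‖q.coeff 0 + q.coeff n‖ ≤ t := by
  have hζ := Complex.isPrimitiveRoot_exp n hn.ne'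
  set ζ := Complex.exp (2 * Real.pi * Complex.I / n) with hζd
  have hζn : ‖ζ‖ = 1 := hζ.norm'_eq_one hn.ne'
  have h1 : ∑ k ∈ Finset.range n, q.eval (ζ ^ k) = n * (q.coeff 0 + q.coeff n) := by
    have e1 : ∀ k, q.eval (ζ ^ k) = ∑ j ∈ Finset.range (n + 1), q.coeff j * (ζ ^ j) ^ k := by
      intro k
      rw [Polynomial.eval_eq_sum_range' (Nat.lt_succ_of_le hd)]
      refine Finset.sum_congr rfl fun j _ => ?_
      rw [← pow_mul, ← pow_mul, mul_comm k j]
    rw [Finset.sum_congr rfl fun k _ => e1 k, Finset.sum_comm]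
    have e2 : ∀ j ∈ Finset.range (n + 1), ∑ k ∈ Finset.range n, q.coeff j * (ζ ^ j) ^ k =
        (if j = 0 then n * q.coeff 0 else 0) + (if j = n then n * q.coeff n else 0) := by
      intro j hj
      rw [← Finset.mul_sum]
      by_cases hj0 : j = 0
      · subst hj0
        rw [if_pos rfl, if_neg hn.ne]
        simp [mul_comm]
      · by_cases hjn : j = n
        · subst hjn
          rw [if_neg hj0, if_pos rfl, hζ.pow_eq_one]
          simp [mul_comm]
        · rw [if_neg hj0, if_neg hjn]
          have hlt : j < n := by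
            have := Finset.mem_range.1 hj
            omega
          have hne : ζ ^ j ≠ 1 := hζ.pow_ne_one_of_pos_of_lt hj0 hlt
          rw [geom_sum_eq hne, ← pow_mul, mul_comm j n, pow_mul, hζ.pow_eq_one, one_pow, sub_self,
            zero_div, mul_zero, add_zero]
    rw [Finset.sum_congr rfl e2, Finset.sum_add_distrib, Finset.sum_ite_eq', Finset.sum_ite_eq',
      if_pos (Finset.mem_range.2 (Nat.succ_pos n)), if_pos (Finset.mem_range.2 (Nat.lt_succ_self n))]
    ring
  have h2 : ‖∑ k ∈ Finset.range n, q.eval (ζ ^ k)‖ ≤ n * t := by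
    refine (norm_sum_le _ _).trans ?_
    refine (Finset.sum_le_card_nsmul _ _ t fun k _ => h _ ?_).trans ?_
    · rw [norm_pow, hζn, one_pow]
    · rw [Finset.card_range, nsmul_eq_mul]
  rw [h1, norm_mul] at h2
  have h3 : ‖(n : ℂ)‖ = n := Complex.norm_natCast n
  rw [h3] at h2
  exact le_of_mul_le_mul_left h2 (by exact_mod_cast hn)

lemma exists_phase (a : ℂ) : ∃ u : ℂ, ‖u‖ = 1 ∧ u * a = ‖a‖ := by
  by_cases ha : a = 0
  · exact ⟨1, norm_one, by rw [ha, mul_zero, norm_zero, Complex.ofReal_zero]⟩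
  · have hn : (‖a‖ : ℂ) ≠ 0 := by
      rw [Ne, Complex.ofReal_eq_zero, norm_eq_zero]
      exact ha
    refine ⟨‖a‖ / a, ?_, ?_⟩
    · rw [norm_div, Complex.norm_real, norm_norm, div_self (norm_ne_zero_iff.2 ha)]
    · rw [div_mul_cancel₀ _ ha]

lemma smul_piecewise (b : MultilinearMap ℂ (fun _ : ι => LL) ℂ) (I : Finset ι) (i0 : ι)
    (hi : i0 ∈ I) (f c : ι → LL) (u : ℂ) :
    b (I.piecewise (fun i => (if i = i0 then u else 1) • f i) c) = u * b (I.piecewise f c) := by
  have h1 : I.piecewise (fun i => (if i = i0 then u else 1) • f i) c =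
      I.piecewise (fun i => (if i = i0 then u else 1) • (I.piecewise f c) i)
        (I.piecewise f c) := by
    funext i
    by_cases h : i ∈ I
    · rw [Finset.piecewise_eq_of_mem _ _ _ h, Finset.piecewise_eq_of_mem _ _ _ h,
        Finset.piecewise_eq_of_mem _ _ _ h]
    · rw [Finset.piecewise_eq_of_notMem _ _ _ h, Finset.piecewise_eq_of_notMem _ _ _ h,
        Finset.piecewise_eq_of_notMem _ _ _ h]
  rw [h1, MultilinearMap.map_piecewise_smul b (fun i => if i = i0 then u else 1)
    (I.piecewise f c) I, Finset.prod_ite_eq', if_pos hi, smul_eq_mul]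

/-- Superadditivity. -/
lemma superadd (b : MultilinearMap ℂ (fun _ : ι => LL) ℂ) (I : Finset ι) (hI : I.Nonempty)
    (f g c : ι → LL) (t : ℝ)
    (h : ∀ u v : ι → ℂ, (∀ i, ‖u i‖ = 1) → (∀ i, ‖v i‖ = 1) →
      ‖b (I.piecewise (fun i => u i • f i + v i • g i) c)‖ ≤ t) :
    ‖b (I.piecewise f c)‖ + ‖b (I.piecewise g c)‖ ≤ t := by
  obtain ⟨i0, hi0⟩ := hI
  obtain ⟨u, hu, hua⟩ := exists_phase (b (I.piecewise f c))
  obtain ⟨v, hv, hva⟩ := exists_phase (b (I.piecewise g c))
  obtain ⟨q, hd, he, hc⟩ := exists_poly b (fun i => (if i = i0 then u else 1) • f i)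
    (fun i => (if i = i0 then v else 1) • g i) I c
  rw [smul_piecewise b I i0 hi0 g c v, hva] at hc
  have h0 : q.coeff 0 = (‖b (I.piecewise f c)‖ : ℂ) := by
    rw [Polynomial.coeff_zero_eq_eval_zero, he]
    have e1 : (fun i => (if i = i0 then u else 1) • f i + (0 : ℂ) •
        (if i = i0 then v else 1) • g i) = fun i => (if i = i0 then u else 1) • f i := by
      funext i
      rw [zero_smul, add_zero]
    rw [e1, smul_piecewise b I i0 hi0 f c u, hua]
  have hpos : 0 < I.card := Finset.card_pos.2 ⟨i0, hi0⟩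
  have h2 := avg q I.card hpos hd t fun w hw => by
    rw [he]
    have e1 : (fun i => (if i = i0 then u else 1) • f i + w •
        (if i = i0 then v else 1) • g i) = fun i => (if i = i0 then u else 1) • f i +
        (w * (if i = i0 then v else 1)) • g i := by
      funext i
      rw [mul_smul]
    rw [e1]
    refine h (fun i => if i = i0 then u else 1) (fun i => w * (if i = i0 then v else 1))
      (fun i => ?_) (fun i => ?_)
    · split_ifs
      · exact hu
      · exact norm_one
    · rw [norm_mul, hw, one_mul]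
      split_ifs
      · exact hv
      · exact norm_one
  rw [h0, hc, ← Complex.ofReal_add, Complex.norm_real] at h2
  exact (le_abs_self _).trans h2

/-- Expansion of the finitely supported arguments. -/
lemma expd (b : MultilinearMap ℂ (fun _ : ι => LL) ℂ) (s : Finset ι) (t c : ι → LL)
    (F : Finset ℕ) (hF : ∀ i, i ∉ s → ∀ n, n ∉ F → c i n = 0)
    (hc : ∀ i, i ∉ s → ∀ n, ‖c i n‖ ≤ 1) (η : ℝ) (hη : 0 ≤ η)
    (h : ∀ z : ι → ℕ, (∀ i, i ∉ s → z i ∈ F ∧ c i (z i) ≠ 0) →
      ‖b (s.piecewise t fun i => ind {z i})‖ ≤ η) :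
    ‖b (s.piecewise t c)‖ ≤ ((F.card : ℝ) + 1) ^ (Fintype.card ι) * η := by
  have h1 : s.piecewise t c = fun i => ∑ j ∈ (if i ∈ s then {0} else F),
      (if i ∈ s then t i else c i j • ind {j}) := by
    funext i
    by_cases hi : i ∈ s
    · simp only [if_pos hi, Finset.piecewise_eq_of_mem _ _ _ hi, Finset.sum_singleton]
    · simp only [if_neg hi, Finset.piecewise_eq_of_notMem _ _ _ hi]
      exact finsupp_sum (c i) F (hF i hi)
  rw [h1, MultilinearMap.map_sum_finset]
  refine (norm_sum_le _ _).trans ?_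
  have h2 : ∀ z ∈ Fintype.piFinset (fun i => if i ∈ s then {0} else F),
      ‖b (fun i => if i ∈ s then t i else c i (z i) • ind {z i})‖ ≤ η := by
    intro z hz
    rw [Fintype.mem_piFinset] at hz
    have e1 : (fun i => if i ∈ s then t i else c i (z i) • ind {z i}) =
        sᶜ.piecewise (fun i => (c i (z i)) • (s.piecewise t fun i => ind {z i}) i)
          (s.piecewise t fun i => ind {z i}) := by
      funext i
      by_cases hi : i ∈ s
      · rw [Finset.piecewise_eq_of_notMem _ _ _ (by rw [Finset.mem_compl]; exact fun h => h hi),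
          Finset.piecewise_eq_of_mem _ _ _ hi, if_pos hi]
      · rw [Finset.piecewise_eq_of_mem _ _ _ (by rw [Finset.mem_compl]; exact hi),
          Finset.piecewise_eq_of_notMem _ _ _ hi, if_neg hi]
    rw [e1, MultilinearMap.map_piecewise_smul b (fun i => c i (z i)), norm_smul]
    by_cases h0 : ∃ i, i ∉ s ∧ c i (z i) = 0
    · obtain ⟨i, hi, hi0⟩ := h0
      rw [Finset.prod_eq_zero (Finset.mem_compl.2 hi) hi0, norm_zero, zero_mul]
      exact hη
    · have h3 : ‖∏ i ∈ sᶜ, c i (z i)‖ ≤ 1 := by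
        rw [norm_prod]
        refine Finset.prod_le_one (fun i _ => norm_nonneg _) fun i hi => ?_
        exact hc i (Finset.mem_compl.1 hi) _
      have h4 := h z fun i hi => ⟨by have := hz i; rwa [if_neg hi] at this, fun h5 => h0 ⟨i, hi, h5⟩⟩
      calc _ ≤ 1 * η := mul_le_mul h3 h4 (norm_nonneg _) zero_le_one
        _ = η := one_mul _
  refine (Finset.sum_le_card_nsmul _ _ η h2).trans ?_
  rw [nsmul_eq_mul]
  refine mul_le_mul_of_nonneg_right ?_ hη
  rw [Fintype.card_piFinset]
  push_cast
  refine (Finset.prod_le_prod (fun i _ => Nat.cast_nonneg _) (g := fun _ => (F.card : ℝ) + 1)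
    fun i _ => ?_).trans ?_
  · split_ifs
    · rw [Finset.card_singleton]
      push_cast
      linarith [Nat.cast_nonneg (α := ℝ) F.card]
    · linarith
  · rw [Finset.prod_const, Finset.card_univ]

end Pool.Agent.W667.BN
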