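import Pool.Agent.W667.BN.C2

set_option autoImplicit false
set_option linter.deprecated false
set_option linter.unusedSectionVars false

/-!
The key lemma: smallness off the supports.
-/

namespace Pool.Agent.W667.BN

open Set

variable {ι : Type} [Fintype ι] [DecidableEq ι] {κ : Type} [Fintype κ] [DecidableEq κ]

lemma fin_calc (P Q δ : ℝ) (hP : 0 < P) (hQ : 0 < Q) : P * (Q * (δ / (P * Q))) ≤ δ :=
  le_of_eq (by field_simp)

/-- The property used in the diagonal argument, for one choice of the frozen data. -/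
def Gd (B : (κ → ℕ) → MultilinearMap ℂ (fun _ : ι => LL) ℂ) (M0 : Set ℕ) (η : ℝ)
    (x : κ → ℕ) (l : κ) (I : Finset ι) (z : ι → ℕ) (N : Set ℕ) : Prop :=
  (∀ k, x k ∈ M0) → (∀ i, z i ∈ M0) → (∀ i i', i ∉ I → i' ∉ I → i ≠ i' → z i ≠ z i') →
    ∀ X ∈ N, X ∈ M0 → ∀ f : ι → LL, (∀ i ∈ I, ‖f i‖ ≤ 1) →
      (∀ i ∈ I, ∀ n, n ∉ N \ {X} → f i n = 0) →
      ‖B (Function.update x l X) (I.piecewise f fun i => ind {z i})‖ ≤ η

lemma Gd.mono {B : (κ → ℕ) → MultilinearMap ℂ (fun _ : ι => LL) ℂ} {M0 : Set ℕ} {η : ℝ}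
    {x : κ → ℕ} {l : κ} {I : Finset ι} {z : ι → ℕ} {N N' : Set ℕ} (h : N' ⊆ N)
    (hG : Gd B M0 η x l I z N) : Gd B M0 η x l I z N' := by
  intro h1 h2 h3 X hX hX0 f hf hf2
  exact hG h1 h2 h3 X (h hX) hX0 f hf fun i hi n hn => hf2 i hi n fun h' => hn ⟨h h'.1, h'.2⟩

variable (B : (κ → ℕ) → MultilinearMap ℂ (fun _ : ι => LL) ℂ) (C : ℝ)
  (hC : ∀ x f, (∀ i, ‖f i‖ ≤ 1) → ‖B x f‖ ≤ C) (M0 : Set ℕ)
  (h3 : ∀ (z : ι → ℕ) (l : κ) (x : κ → ℕ), Function.Injective z → (∀ i, z i ∈ M0) →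
    (∀ k, x k ∈ M0) → ∀ ε : ℝ, 0 < ε → ∃ n0, ∀ X ∈ M0, n0 ≤ X →
      ‖B (Function.update x l X) fun i => ind {z i}‖ ≤ ε)

include hC h3

lemma Gd_att (η : ℝ) (hη : 0 < η) (x : κ → ℕ) (l : κ) (I : Finset ι) (z : ι → ℕ) (N : Set ℕ)
    (hN : N.Infinite) : ∃ M ⊆ N, M.Infinite ∧ Gd B M0 η x l I z M := by
  by_cases hI : I.Nonempty
  · obtain ⟨M, hM1, hM2, hM3⟩ := ros (fun X P t => ∀ f : ι → LL, (∀ i ∈ I, ‖f i‖ ≤ 1) →
        (∀ i ∈ I, ∀ n, n ∉ P → f i n = 0) →
        ‖B (Function.update x l X) (I.piecewise f fun i => ind {z i})‖ ≤ t)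
      (by
        intro X P Q t ε hPQ hBd hno f hf hf2
        push Not at hno
        obtain ⟨g, hg, hg2, hg3⟩ := hno
        have h1 := superadd (B (Function.update x l X)) I hI f g (fun i => ind {z i}) t (by
          intro u v hu hv
          have e1 : I.piecewise (fun i => u i • f i + v i • g i) (fun i => ind {z i}) =
              I.piecewise (fun i => if i ∈ I then u i • f i + v i • g i else 0)
                (fun i => ind {z i}) := by
            refine Finset.piecewise_congr _ (fun i hi => ?_) fun i _ => rfl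
            rw [if_pos hi]
          rw [e1]
          refine hBd _ (fun i hi => ?_) fun i hi n hn => ?_
          · rw [if_pos hi, LL_norm_le _ zero_le_one]
            intro n
            show ‖u i * f i n + v i * g i n‖ ≤ 1
            by_cases hn : n ∈ P
            · rw [hg2 i hi n (Set.disjoint_left.1 hPQ hn), mul_zero, add_zero, norm_mul, hu,
                one_mul]
              exact (LL_apply_le _ _).trans (hf i hi)
            · rw [hf2 i hi n hn, mul_zero, zero_add, norm_mul, hv, one_mul]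
              exact (LL_apply_le _ _).trans (hg i hi)
          · rw [if_pos hi]
            show u i * f i n + v i * g i n = 0
            rw [hf2 i hi n fun h => hn (Or.inl h), hg2 i hi n fun h => hn (Or.inr h), mul_zero,
              mul_zero, add_zero])
        linarith)
      (fun X P t t' htt h f hf hf2 => (h f hf hf2).trans htt) C
      (by
        intro X P f hf hf2
        refine hC _ _ fun i => ?_
        by_cases hi : i ∈ I
        · rw [Finset.piecewise_eq_of_mem _ _ _ hi]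
          exact hf i hi
        · rw [Finset.piecewise_eq_of_notMem _ _ _ hi]
          exact ind_norm _)
      η hη N hN
    exact ⟨M, hM1, hM2, fun _ _ _ X hX _ f hf hf2 => hM3 X hX f hf hf2⟩
  · rw [Finset.not_nonempty_iff_eq_empty] at hI
    subst hI
    by_cases hx : (∀ k, x k ∈ M0) ∧ (∀ i, z i ∈ M0) ∧ Function.Injective z
    · obtain ⟨n0, hn0⟩ := h3 z l x hx.2.2 hx.2.1 hx.1 η hη
      refine ⟨N \ {n | n ≤ n0}, diff_subset, hN.diff (finite_le_nat _), ?_⟩
      intro _ _ _ X hX hX0 f _ _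
      rw [Finset.piecewise_empty]
      exact hn0 X hX0 (not_le.1 hX.2).le
    · refine ⟨N, Subset.rfl, hN, ?_⟩
      intro h1 h2 h3'
      refine absurd ⟨h1, h2, fun i i' hii => ?_⟩ hx
      by_contra hne
      exact h3' i i' (Finset.notMem_empty i) (Finset.notMem_empty i') hne hii

/-- The key lemma. -/
theorem key (hM0 : M0.Infinite) (δ : ℝ) (hδ : 0 < δ) :
    ∃ M ⊆ M0, M.Infinite ∧ ∀ f : ι → LL, (∀ i, ‖f i‖ ≤ 1) → (∀ i, ∀ n, n ∉ M → f i n = 0) →
      (∀ i i', i ≠ i' → ∀ n, f i n = 0 ∨ f i' n = 0) → ∀ (x : κ → ℕ) (l : κ), (∀ k, x k ∈ M) →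
        ∃ n0, ∀ X ∈ M, n0 ≤ X → (∀ i, f i X = 0) → ‖B (Function.update x l X) f‖ ≤ δ := by
  let η : Finset ℕ → ℝ := fun F =>
    δ / (2 ^ Fintype.card ι * ((F.card : ℝ) + 1) ^ Fintype.card ι)
  have hη : ∀ F, 0 < η F := fun F => by positivity
  obtain ⟨m, hm1, hm2, hm3⟩ := diag (fun F N => ∀ (x : κ → F) (l : κ) (I : Finset ι) (z : ι → F),
      Gd B M0 (η F) (fun k => (x k : ℕ)) l I (fun i => (z i : ℕ)) N)
    (fun F N N' hN h x l I z => (h x l I z).mono hN)
    (by
      intro F N hN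
      obtain ⟨M, h1, h2, h4⟩ := att_all (ι := (κ → F) × κ × Finset ι × (ι → F))
        (fun p M => Gd B M0 (η F) (fun k => (p.1 k : ℕ)) p.2.1 p.2.2.1 (fun i => (p.2.2.2 i : ℕ)) M)
        (fun p M M' hM h => h.mono hM)
        (fun p N hN => Gd_att B C hC M0 h3 (η F) (hη F) _ _ _ _ N hN) N hN
      exact ⟨M, h1, h2, fun x l I z => h4 (x, l, I, z)⟩) M0 hM0
  refine ⟨range m, ?_, infinite_range_of_injective hm1.injective, ?_⟩
  · rintro _ ⟨i, rfl⟩
    exact hm2 i
  intro f hf1 hf2 hf3 x l hx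
  choose p hp using hx
  -- a stage beyond all the coordinates
  obtain ⟨j, hj⟩ : ∃ j, ∀ k, p k < j :=
    ⟨(Finset.univ.sup p) + 1, fun k => Nat.lt_succ_of_le (Finset.le_sup (Finset.mem_univ k))⟩
  let F : Finset ℕ := Finset.image m (Finset.range j)
  have hxF : ∀ k, x k ∈ F := fun k =>
    Finset.mem_image.2 ⟨p k, Finset.mem_range.2 (hj k), hp k⟩
  have hFM : ∀ n ∈ F, n ∈ M0 := by
    intro n hn
    obtain ⟨i, _, rfl⟩ := Finset.mem_image.1 hn
    exact hm2 i
  refine ⟨m j, ?_⟩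
  rintro _ ⟨i, rfl⟩ hXj hX0
  have hij : j ≤ i := hm1.le_iff_le.1 hXj
  -- the expansion
  have hsplit : f = (fun i => cut (F : Set ℕ)ᶜ (f i)) + fun i => cut (F : Set ℕ) (f i) := by
    funext i
    show f i = cut (F : Set ℕ)ᶜ (f i) + cut (F : Set ℕ) (f i)
    rw [add_comm, cut_add_compl]
  have hmain : ∀ I : Finset ι, ‖B (Function.update x l (m i))
      (I.piecewise (fun i => cut (F : Set ℕ)ᶜ (f i)) fun i => cut (F : Set ℕ) (f i))‖ ≤
      ((F.card : ℝ) + 1) ^ (Fintype.card ι) * η F := by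
    intro I
    refine expd _ I _ _ F (fun i _ n hn => cut_of_notMem hn)
      (fun i _ n => (LL_apply_le _ _).trans ((cut_norm _ _).trans (hf1 i))) (η F) (hη F).le ?_
    intro z hz
    have hne : ∀ i, i ∉ I → f i (z i) ≠ 0 := by
      intro i hi h0
      have h1 := (hz i hi).2
      rw [cut_of_mem (Finset.mem_coe.2 (hz i hi).1)] at h1
      exact h1 h0
    -- replace irrelevant coordinates of `z`
    rcases isEmpty_or_nonempty κ with hκ | ⟨⟨k0⟩⟩
    · exact hκ.elim l
    let z' : ι → F := fun i => if h : i ∉ I then ⟨z i, (hz i h).1⟩ else ⟨x k0, hxF k0⟩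
    have hz' : ∀ i, i ∉ I → ((z' i : F) : ℕ) = z i := fun i hi => by
      show ((if h : i ∉ I then (⟨z i, (hz i h).1⟩ : F) else ⟨x k0, hxF k0⟩ : F) : ℕ) = z i
      rw [dif_pos hi]
    have e1 : I.piecewise (fun i => cut (F : Set ℕ)ᶜ (f i)) (fun i => ind {z i}) =
        I.piecewise (fun i => cut (F : Set ℕ)ᶜ (f i)) (fun i => ind {((z' i : F) : ℕ)}) := by
      refine Finset.piecewise_congr _ (fun i _ => rfl) fun i hi => ?_
      rw [hz' i hi]
    rw [e1]
    refine hm3 j (fun k => ⟨x k, hxF k⟩) l I z' (fun k => hFM _ (hxF k)) (fun i => hFM _ (z' i).2)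
      ?_ (m i) ⟨i, hij, rfl⟩ (hm2 i) _ (fun i _ => (cut_norm _ _).trans (hf1 i)) ?_
    · intro a b ha hb hab
      show ((z' a : F) : ℕ) ≠ ((z' b : F) : ℕ)
      rw [hz' a ha, hz' b hb]
      intro h0
      rcases hf3 a b hab (z a) with h1 | h1
      · exact hne a ha h1
      · rw [h0] at h1
        exact hne b hb h1
    · intro a _ n hn
      by_cases hnF : n ∈ F
      · exact cut_of_notMem fun h => h hnF
      · have hnF' : n ∈ ((F : Set ℕ)ᶜ) := hnF
        rw [cut_of_mem hnF']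
        by_cases hnm : n ∈ range m
        · obtain ⟨q, rfl⟩ := hnm
          by_cases hq : j ≤ q
          · by_cases hqi : m q = m i
            · rw [hqi]
              exact hX0 a
            · exact absurd ⟨⟨q, hq, rfl⟩, hqi⟩ hn
          · exact absurd (Finset.mem_image.2 ⟨q, Finset.mem_range.2 (not_le.1 hq), rfl⟩) hnF
        · exact hf2 a n hnm
  have hsum : B (Function.update x l (m i)) f = ∑ I : Finset ι, B (Function.update x l (m i))
      (I.piecewise (fun i => cut (F : Set ℕ)ᶜ (f i)) fun i => cut (F : Set ℕ) (f i)) := by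
    conv_lhs => rw [hsplit]
    exact MultilinearMap.map_add_univ _ _ _
  rw [hsum]
  refine (norm_sum_le _ _).trans ?_
  refine (Finset.sum_le_card_nsmul _ _ _ fun I _ => hmain I).trans ?_
  rw [Finset.card_univ, Fintype.card_finset, nsmul_eq_mul]
  push_cast
  exact fin_calc _ _ _ (pow_pos two_pos _) (pow_pos (Nat.cast_add_one_pos _) _)

end Pool.Agent.W667.BN
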